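import Pool.Agent.H42.LK.Homology

set_option autoImplicit false

/-!
# The order of the first homology group near a degenerate framing
-/

namespace Pool.Agent.H42.LK

open Pool.Agent.H42.ML

/-- The polynomial which gives the order of the first homology group. -/
def EE (D w : Fin 3 → ℝ) : ℝ :=
  D 0 * D 1 * D 2 - (D 0 * D 1 * (w 0 + w 1) + D 1 * D 2 * (w 1 + w 2) + D 2 * D 0 * (w 2 + w 0))
    + (D 0 + D 1 + D 2) * (w 0 * w 1 + w 1 * w 2 + w 2 * w 0)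

theorem det_EE {l χ p q : Fin 3 → ℤ} (hq : ∀ c, 1 ≤ q c) {D : Fin 3 → ℝ}
    (hD : ∀ c, D c = χ c * (p c / q c * χ c + l (c + 2) * χ (c + 1) + l (c + 1) * χ (c + 2))) :
    ((relMat l p q).det : ℝ) * (χ 0 * χ 1 * χ 2) ^ 2 =
      q 0 * q 1 * q 2 * EE D (fun c => χ (c + 1) * χ (c + 2) * l c) := by
  have hq0 : ∀ c, (q c : ℝ) ≠ 0 := fun c => by
    have := hq c
    exact_mod_cast (by omega : q c ≠ 0)
  obtain ⟨r, hr⟩ : ∃ r : Fin 3 → ℝ, ∀ c, r c = p c / q c := ⟨fun c => p c / q c, fun c => rfl⟩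
  have hp : ∀ c, (p c : ℝ) = q c * r c := fun c => by rw [hr, mul_div_cancel₀ _ (hq0 c)]
  have h0 := hD 0
  have h1 := hD 1
  have h2 := hD 2
  rw [← hr] at h0 h1 h2
  have a1 : (0 : Fin 3) + 1 = 1 := rfl
  have a2 : (0 : Fin 3) + 2 = 2 := rfl
  have a3 : (1 : Fin 3) + 1 = 2 := rfl
  have a4 : (1 : Fin 3) + 2 = 0 := rfl
  have a5 : (2 : Fin 3) + 1 = 0 := rfl
  have a6 : (2 : Fin 3) + 2 = 1 := rfl
  rw [a1, a2] at h0
  rw [a3, a4] at h1
  rw [a5, a6] at h2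
  rw [relMat_det]
  simp only [EE, a1, a2, a3, a4, a5, a6]
  push_cast
  rw [h0, h1, h2, hp 0, hp 1, hp 2]
  ring

/-- The value at the third index. -/
theorem sum3 (G : Fin 3 → ℝ) (k : Fin 3) : G 0 + G 1 + G 2 = G k + G (k + 1) + G (k + 2) := by
  fin_cases k
  · rfl
  · show G 0 + G 1 + G 2 = G 1 + G 2 + G 0
    ring
  · show G 0 + G 1 + G 2 = G 2 + G 0 + G 1
    ring

theorem cone_facts {η : ℝ} (hη : 0 < η) {D : Fin 3 → ℝ} {k : Fin 3} (h : ConeAt η D k) :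
    0 < |D k| ∧ (∀ c, |D c| ≤ |D k|) ∧ η * |D k| ≤ |D 0 + D 1 + D 2| := by
  obtain ⟨h1, h2, h3, h4, h5⟩ := h
  have hk : D k ≠ 0 := by rintro h; rw [h] at h2; simp at h2
  have hkp := abs_pos.2 hk
  have n1 := abs_nonneg (D (k + 1))
  have n2 := abs_nonneg (D (k + 2))
  have hηk : 0 < η * |D k| := by positivity
  refine ⟨hkp, fun c => ?_, ?_⟩
  · rcases fin3_cases k c with rfl | rfl | rfl
    · exact le_rfl
    · nlinarith
    · nlinarith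
  · rw [sum3 D k]
    have t1 : |D k| ≤ |D k + D (k + 1) + D (k + 2)| + (|D (k + 1)| + |D (k + 2)|) := by
      have e : D k = (D k + D (k + 1) + D (k + 2)) + (-(D (k + 1)) + -(D (k + 2))) := by ring
      calc |D k| = |(D k + D (k + 1) + D (k + 2)) + (-(D (k + 1)) + -(D (k + 2)))| := by rw [← e]
        _ ≤ |D k + D (k + 1) + D (k + 2)| + |-(D (k + 1)) + -(D (k + 2))| := abs_add_le _ _
        _ ≤ |D k + D (k + 1) + D (k + 2)| + (|-(D (k + 1))| + |-(D (k + 2))|) := by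
            have := abs_add_le (-(D (k + 1))) (-(D (k + 2)))
            linarith
        _ = _ := by rw [abs_neg, abs_neg]
    linarith

theorem EE_bound {D w : Fin 3 → ℝ} {M S : ℝ} (hM : ∀ c, |D c| ≤ M)
    (hS : 2 * (|w 0| + |w 1| + |w 2|) ≤ S) :
    |D 0 + D 1 + D 2| * |w 0 * w 1 + w 1 * w 2 + w 2 * w 0| - M ^ 2 * S - M ^ 3 ≤ |EE D w| := by
  have hM0 : 0 ≤ M := (abs_nonneg _).trans (hM 0)
  have n0 := abs_nonneg (w 0)
  have n1 := abs_nonneg (w 1)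
  have n2 := abs_nonneg (w 2)
  have pr : ∀ a b : Fin 3, |D a * D b| ≤ M ^ 2 := by
    intro a b
    rw [abs_mul, sq]
    exact mul_le_mul (hM a) (hM b) (abs_nonneg _) hM0
  have pr3 : |D 0 * D 1 * D 2| ≤ M ^ 3 := by
    rw [abs_mul, pow_succ]
    exact mul_le_mul (pr 0 1) (hM 2) (abs_nonneg _) (by positivity)
  have q3 : ∀ (a b : Fin 3) (x y : ℝ), |D a * D b * (x + y)| ≤ M ^ 2 * (|x| + |y|) := by
    intro a b x y
    rw [abs_mul]
    exact mul_le_mul (pr a b) (abs_add_le x y) (abs_nonneg _) (by positivity)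
  have e : (D 0 + D 1 + D 2) * (w 0 * w 1 + w 1 * w 2 + w 2 * w 0) = EE D w -
      D 0 * D 1 * D 2 + D 0 * D 1 * (w 0 + w 1) + D 1 * D 2 * (w 1 + w 2) +
      D 2 * D 0 * (w 2 + w 0) := by rw [EE]; ring
  have h1 : |D 0 + D 1 + D 2| * |w 0 * w 1 + w 1 * w 2 + w 2 * w 0| ≤ |EE D w| + M ^ 3 +
      M ^ 2 * (|w 0| + |w 1|) + M ^ 2 * (|w 1| + |w 2|) + M ^ 2 * (|w 2| + |w 0|) := by
    rw [← abs_mul, e]
    have s1 := abs_add_le (EE D w - D 0 * D 1 * D 2 + D 0 * D 1 * (w 0 + w 1) +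
      D 1 * D 2 * (w 1 + w 2)) (D 2 * D 0 * (w 2 + w 0))
    have s2 := abs_add_le (EE D w - D 0 * D 1 * D 2 + D 0 * D 1 * (w 0 + w 1))
      (D 1 * D 2 * (w 1 + w 2))
    have s3 := abs_add_le (EE D w - D 0 * D 1 * D 2) (D 0 * D 1 * (w 0 + w 1))
    have s4 : |EE D w - D 0 * D 1 * D 2| ≤ |EE D w| + |D 0 * D 1 * D 2| := abs_sub _ _
    have t1 := q3 0 1 (w 0) (w 1)
    have t2 := q3 1 2 (w 1) (w 2)
    have t3 := q3 2 0 (w 2) (w 0)
    linarith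
  have h2 : M ^ 2 * (|w 0| + |w 1|) + M ^ 2 * (|w 1| + |w 2|) + M ^ 2 * (|w 2| + |w 0|) ≤
      M ^ 2 * S := by
    have : M ^ 2 * (|w 0| + |w 1|) + M ^ 2 * (|w 1| + |w 2|) + M ^ 2 * (|w 2| + |w 0|) =
        M ^ 2 * (2 * (|w 0| + |w 1| + |w 2|)) := by ring
    rw [this]
    exact mul_le_mul_of_nonneg_left hS (by positivity)
  linarith

end Pool.Agent.H42.LK
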