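import Pool.Agent.H42.LK.Red
import Pool.Agent.H42.ML.Final

set_option autoImplicit false

/-!
# The family of actions on the line
-/

namespace Pool.Agent.H42.LK

open Pool.Agent.H42.LO Pool.Agent.H42.ML Filter Topology Real
open scoped Matrix.Norms.Operator

theorem ell_conj {U : Mat} (htr : U 1 1 = - U 0 0) (hsq : U 0 0 ^ 2 + U 0 1 * U 1 0 = -1)
    (hr : 0 < U 1 0) : ∃ f : ℝ ≃o ℝ, (∀ t, f (t + π) = f t + π) ∧
      ∀ τ, IsLift (cos τ • (1 : Mat) + sin τ • U) (f * sh τ * f⁻¹) := by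
  obtain ⟨q, hq⟩ : ∃ q : ℝ, q = Real.sqrt (U 1 0) := ⟨_, rfl⟩
  have hq0 : 0 < q := by rw [hq]; exact Real.sqrt_pos.2 hr
  have hq2 : q * q = U 1 0 := by rw [hq]; exact Real.mul_self_sqrt hr.le
  obtain ⟨g, hg⟩ : ∃ g : Mat, g = !![1 / q, U 0 0 / q; 0, q] := ⟨_, rfl⟩
  have g00 : g 0 0 = 1 / q := by rw [hg]; simp
  have g01 : g 0 1 = U 0 0 / q := by rw [hg]; simp
  have g10 : g 1 0 = 0 := by rw [hg]; simp
  have g11 : g 1 1 = q := by rw [hg]; simp
  have hd : g 0 0 * g 1 1 - g 0 1 * g 1 0 = 1 := by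
    rw [g00, g01, g10, g11]; field_simp; ring
  have ht : -2 < g 0 0 + g 1 1 := by
    rw [g00, g11]
    have : 0 < 1 / q := by positivity
    linarith
  set f := can g hd ht with hf
  have hfl : IsLift g f := can_isLift g hd ht
  refine ⟨f, hfl.per, fun τ => ?_⟩
  have h1 := (hfl.mul (sh_isLift τ)).mul (hfl.inv (adj_mul hd))
  have h2 : g * rot τ * adj g = cos τ • (1 : Mat) + sin τ • U := by
    have e01 : U 0 1 = -(1 + U 0 0 ^ 2) / U 1 0 := by
      rw [eq_div_iff hr.ne']; linarith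
    apply mat_ext
    · simp [Matrix.mul_apply, Fin.sum_univ_two, adj, g00, g01, g10, g11]
      field_simp
    · simp only [Matrix.mul_apply, Fin.sum_univ_two, adj, g00, g01, g10, g11, rot_00, rot_01,
        rot_10, rot_11, Matrix.of_apply, Matrix.cons_val', Matrix.cons_val_zero,
        Matrix.cons_val_one, Matrix.cons_val_fin_one, Matrix.add_apply, Matrix.smul_apply,
        Matrix.one_apply_ne (show (0 : Fin 2) ≠ 1 by decide), smul_eq_mul, e01, ← hq2]
      field_simp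
      ring
    · simp [Matrix.mul_apply, Fin.sum_univ_two, adj, g00, g01, g10, g11, ← hq2]
      ring
    · simp [Matrix.mul_apply, Fin.sum_univ_two, adj, g00, g01, g10, g11, htr]
      field_simp
      ring
  rw [← h2]
  exact h1

/-- The lifts of a one-parameter group of rotations. -/
theorem ell_param {y : Fin 3 → ℝ} (hy : 0 < kap false * nrm y) {e : ℝ} (he : e = 1 ∨ e = -1)
    (hy2 : 0 < e * y 2) : ∃ f : ℝ ≃o ℝ, (∀ t, f (t + π) = f t + π) ∧
      ∀ τ, IsLift (ex false y τ) (f * sh (τ * (e * len false y)) * f⁻¹) := by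
  have hl0 := len_pos hy
  have hl1 := hl0.ne'
  have hn := nrm_eq hy
  have hn' : y 0 ^ 2 + y 1 ^ 2 - y 2 ^ 2 = -(len false y ^ 2) := by
    have : nrm y = kap false * len false y ^ 2 := hn
    simp only [nrm, kap, Bool.false_eq_true, if_false] at this
    linarith
  have he2 : e * e = 1 := by rcases he with h | h <;> rw [h] <;> norm_num
  have hpos : 0 < e * (y 1 + y 2) := by
    have h1 : (e * y 2) ^ 2 = y 2 ^ 2 := by rw [mul_pow]; nlinarith
    have h2 : (e * y 1) ^ 2 = y 1 ^ 2 := by rw [mul_pow]; nlinarith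
    have h3 : (e * y 1) ^ 2 < (e * y 2) ^ 2 := by
      rw [h1, h2]; nlinarith [sq_nonneg (y 0), pow_pos hl0 2]
    have h4 := abs_lt_of_sq_lt_sq h3 hy2.le
    rw [abs_lt] at h4
    linarith [h4.1]
  obtain ⟨f, hf, hf'⟩ := ell_conj (U := (e / len false y) • Yv y) (by simp) (by
      simp only [Matrix.smul_apply, Yv_00, Yv_01, Yv_10, smul_eq_mul]
      have : (e / len false y * y 0) ^ 2 + e / len false y * (y 1 - y 2) *
        (e / len false y * (y 1 + y 2)) = e * e * (y 0 ^ 2 + y 1 ^ 2 - y 2 ^ 2) /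
          len false y ^ 2 := by field_simp; ring
      rw [this, he2, hn', one_mul, neg_div, div_self (by positivity)]) (by
      simp only [Matrix.smul_apply, Yv_10, smul_eq_mul]
      have : e / len false y * (y 1 + y 2) = e * (y 1 + y 2) / len false y := by ring
      rw [this]
      exact div_pos hpos hl0)
  refine ⟨f, hf, fun τ => ?_⟩
  have h1 := hf' (τ * (e * len false y))
  have h2 : cos (τ * (e * len false y)) • (1 : Mat) +
      sin (τ * (e * len false y)) • ((e / len false y) • Yv y) = ex false y τ := by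
    rw [ex, smul_smul]
    simp only [cs, sn, Bool.false_eq_true, if_false]
    rcases he with h | h
    · rw [h]
      congr 2
      · ring_nf
      · rw [one_mul]; ring
    · rw [h]
      have e1 : τ * (-1 * len false y) = -(τ * len false y) := by ring
      rw [e1, Real.cos_neg, Real.sin_neg]
      congr 2
      ring
  rw [← h2]
  exact h1

theorem conj_sh_disp {f : ℝ ≃o ℝ} (hf : ∀ t, f (t + π) = f t + π) {τ : ℝ} (hτ : |τ| ≤ π)
    (s : ℝ) : |(f * sh τ * f⁻¹) s - s| ≤ π := by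
  have hinv : ∀ t, f (f⁻¹ t) = t := fun t => f.apply_symm_apply t
  have hper : f (f⁻¹ s + π) = s + π := by rw [hf, hinv]
  have hper' : f (f⁻¹ s - π) = s - π := by
    have h1 := hf (f⁻¹ s - π)
    rw [sub_add_cancel, hinv] at h1
    linarith
  have h0 : (f * sh τ * f⁻¹) s = f (f⁻¹ s + τ) := rfl
  rw [h0]
  rw [abs_le] at hτ ⊢
  constructor
  · have : f (f⁻¹ s - π) ≤ f (f⁻¹ s + τ) := f.monotone (by linarith [hτ.1])
    linarith
  · have : f (f⁻¹ s + τ) ≤ f (f⁻¹ s + π) := f.monotone (by linarith [hτ.2])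
    linarith

theorem IsLift_one_scalar {K : Mat} (h : IsLift K 1) :
    K 0 1 = 0 ∧ K 1 0 = 0 ∧ K 0 0 = K 1 1 ∧ 0 < K 0 0 := by
  obtain ⟨r, hr, e1, e2⟩ := h.dir 0
  obtain ⟨r', hr', e3, e4⟩ := h.dir (π / 2)
  obtain ⟨r'', hr'', e5, e6⟩ := h.dir (π / 4)
  have hone' : ∀ t, (1 : ℝ ≃o ℝ) t = t := fun t => rfl
  rw [hone'] at e1 e2 e3 e4 e5 e6
  simp only [Real.cos_zero, Real.sin_zero, Real.cos_pi_div_two, Real.sin_pi_div_two, mul_one,
    mul_zero, add_zero, zero_add] at e1 e2 e3 e4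
  rw [Real.cos_pi_div_four, Real.sin_pi_div_four, e3] at e5
  rw [Real.cos_pi_div_four, Real.sin_pi_div_four, e2] at e6
  have hsq : (0 : ℝ) < Real.sqrt 2 / 2 := by positivity
  refine ⟨e3, e2, ?_, by linarith⟩
  have : (K 0 0 - K 1 1) * (Real.sqrt 2 / 2) = 0 := by linarith
  rcases mul_eq_zero.1 this with h | h
  · linarith
  · linarith

/-- A lift determines the matrix of determinant one. -/
theorem IsLift_unique {M N : Mat} (hM : M.det = 1) (hN : N.det = 1) {f : ℝ ≃o ℝ}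
    (h1 : IsLift M f) (h2 : IsLift N f) : M = N := by
  have hM' : M 0 0 * M 1 1 - M 0 1 * M 1 0 = 1 := by rw [← Matrix.det_fin_two]; exact hM
  have h3 := (h1.inv (adj_mul hM')).mul h2
  rw [inv_mul_cancel] at h3
  obtain ⟨a, b, c, d⟩ := IsLift_one_scalar h3
  have h4 : (adj M * N).det = 1 := by
    have h5 := congrArg Matrix.det (adj_mul hM')
    rw [Matrix.det_mul, hM, mul_one, Matrix.det_one] at h5
    rw [Matrix.det_mul, h5, hN, one_mul]
  rw [Matrix.det_fin_two, a, b, ← c] at h4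
  have h6 : (adj M * N) 0 0 = 1 := by nlinarith
  have h7 : adj M * N = 1 := by
    apply mat_ext
    · simpa using h6
    · simpa using a
    · simpa using b
    · rw [← c]; simpa using h6
  calc M = M * (adj M * N) := by rw [h7, mul_one]
    _ = N := by rw [← mul_assoc, mul_adj hM', one_mul]

variable {n : ℕ} (B : Braid n) {base : Fin 3 → Fin n} (hb : B.IsBase base)
variable {l : Fin 3 → ℤ} {κ : ℝ} {α β ρ s w : Fin 3 → ℝ} {y : Fin 3 → Fin 3 → ℝ}

theorem vm_isLift {f : FreeGroup (Fin n) →* Matˣ} {g : Fin n → (ℝ ≃o ℝ)}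
    (hg : ∀ k, IsLift (vm f (FreeGroup.of k)) (g k)) (v : FreeGroup (Fin n)) :
    IsLift (vm f v) (FreeGroup.lift g v) := by
  induction v using FreeGroup.induction_on with
  | C1 => rw [map_one, map_one]; exact IsLift.one
  | of k =>
    have := hg k
    show IsLift (vm f (FreeGroup.of k)) (FreeGroup.lift g (FreeGroup.of k))
    rwa [FreeGroup.lift_apply_of]
  | inv_of k ih =>
    show IsLift (vm f (FreeGroup.of k)⁻¹) (FreeGroup.lift g (FreeGroup.of k)⁻¹)
    have e : FreeGroup.lift g (FreeGroup.of k)⁻¹ = (g k)⁻¹ := by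
      rw [map_inv, FreeGroup.lift_apply_of]
    rw [e]
    exact (hg k).inv (vm_inv' f _)
  | mul v w hv hw => rw [map_mul, map_mul]; exact hv.mul hw

/-- An action of the link group on the line with elliptic peripheral elements. -/
structure Act (B : Braid n) (base : Fin 3 → Fin n) (ε : ℝ) (w s : Fin 3 → ℝ)
    (g : Fin n → (ℝ ≃o ℝ)) : Prop where
  per : ∀ k t, g k (t + π) = g k t + π
  rel : ∀ k, FreeGroup.lift g
    (B.u k * FreeGroup.of (B.s k) * (B.u k)⁻¹ * (FreeGroup.of k)⁻¹) = 1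
  peri : ∀ c, ∃ f : ℝ ≃o ℝ, (∀ t, f (t + π) = f t + π) ∧
    g (base c) = f * sh (ε * w c) * f⁻¹ ∧
    FreeGroup.lift g (B.longitude (base c)) = f * sh (ε * s c * w c) * f⁻¹
  nc : g (base 0) * g (base 1) ≠ g (base 1) * g (base 0)

include hb in
/-- Close to the base point a solution gives an action on the line. -/
theorem act_ev (h : BP l κ α β ρ s w y) (hL : HasLinking B base l) :
    ∀ᶠ x in 𝓝 ((0, ρ) : ℝ × (Fin 3 → ℝ)), x.1 ≠ 0 → ∃ w' s' : Fin 3 → ℝ,
      (∀ c, w' c ≠ 0) ∧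
      (∀ c, w' c * (α c + κ * (x.1 * x.2 c + s' c)) + β c * x.2 c = 0) ∧
      ∃ g : Fin n → (ℝ ≃o ℝ), Act B base x.1 w' s' g := by
  classical
  obtain ⟨Lr, hLr⟩ : ∃ L : Fin n → ℕ, ∀ k, ∀ (δ : ℝ) (g : Fin n → (ℝ ≃o ℝ)),
      (∀ k t, |g k t - t| ≤ δ) → ∀ t, |FreeGroup.lift g
        (B.u k * FreeGroup.of (B.s k) * (B.u k)⁻¹ * (FreeGroup.of k)⁻¹) t - t| ≤ L k * δ :=
    ⟨fun k => (word_disp _).choose, fun k => (word_disp _).choose_spec⟩
  obtain ⟨Ll, hLl⟩ : ∃ L : Fin 3 → ℕ, ∀ c, ∀ (δ : ℝ) (g : Fin n → (ℝ ≃o ℝ)),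
      (∀ k t, |g k t - t| ≤ δ) → ∀ t, |FreeGroup.lift g (B.longitude (base c)) t - t| ≤ L c * δ :=
    ⟨fun c => (word_disp _).choose, fun c => (word_disp _).choose_spec⟩
  obtain ⟨N, hN⟩ : ∃ N : ℕ, N = ∑ k, Lr k + ∑ c, Ll c + 1 := ⟨_, rfl⟩
  have hN0 : (0 : ℝ) < N := by rw [hN]; positivity
  have hLrN : ∀ k, (Lr k : ℝ) ≤ N := by
    intro k
    have h1 : Lr k ≤ ∑ k, Lr k := Finset.single_le_sum (fun _ _ => Nat.zero_le _) (Finset.mem_univ k)
    exact_mod_cast (by omega : Lr k ≤ N)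
  have hLlN : ∀ c, (Ll c : ℝ) ≤ N := by
    intro c
    have h1 : Ll c ≤ ∑ c, Ll c := Finset.single_le_sum (fun _ _ => Nat.zero_le _) (Finset.mem_univ c)
    exact_mod_cast (by omega : Ll c ≤ N)
  have hpi := Real.pi_pos
  obtain ⟨δ, hδ⟩ : ∃ δ : ℝ, δ = Real.pi / (2 * N) := ⟨_, rfl⟩
  have hδ0 : 0 < δ := by rw [hδ]; positivity
  have hNδ : N * δ = Real.pi / 2 := by rw [hδ]; field_simp
  have hsmall : ∀ᶠ a in 𝓝 (pt5 n ρ s y), ∀ k,
      (∀ t, |canFun (vm (vl B hb a) (FreeGroup.of k)) t - t| < δ) ∧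
      -2 < (vm (vl B hb a) (FreeGroup.of k)) 0 0 + (vm (vl B hb a) (FreeGroup.of k)) 1 1 :=
    eventually_all.2 fun k => (vm_tendsto (ρ := ρ) (s := s) B hb h.pos (FreeGroup.of k)).eventually
      (disp_small hδ0)
  have hs1 : ∀ᶠ a in 𝓝 (pt5 n ρ s y), ∀ c, |a.1 * wf w c a| < Real.pi := by
    refine eventually_all.2 fun c => ?_
    have h1 : ContDiffAt ℝ 1 (fun a : P5 n => a.1 * wf w c a) (pt5 n ρ s y) :=
      c_eps.mul (c_wf h.pos w c)
    have h2 := h1.continuousAt.tendsto.abs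
    refine h2.eventually_lt_const ?_
    simpa [pt5] using hpi
  have hs2 : ∀ᶠ a in 𝓝 (pt5 n ρ s y), ∀ c, |a.1 * a.2.2.1 c * wf w c a| < Real.pi := by
    refine eventually_all.2 fun c => ?_
    have h1 : ContDiffAt ℝ 1 (fun a : P5 n => a.1 * a.2.2.1 c * wf w c a) (pt5 n ρ s y) :=
      (c_eps.mul (c_s c)).mul (c_wf h.pos w c)
    have h2 := h1.continuousAt.tendsto.abs
    refine h2.eventually_lt_const ?_
    simpa [pt5] using hpi
  have hfut : ∀ᶠ a in 𝓝 (pt5 n ρ s y), ∀ c, 0 < w c * a.2.2.2.1 c 2 := by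
    refine eventually_all.2 fun c => ?_
    have h1 : ContDiffAt ℝ 1 (fun a : P5 n => w c * a.2.2.2.1 c 2) (pt5 n ρ s y) :=
      contDiffAt_const.mul (contDiffAt_pi.1 (c_y c) 2)
    exact continuousAt_const.eventually_lt h1.continuousAt (h.fut c)
  have h10 : ∀ᶠ a in 𝓝 (pt5 n ρ s y), a.2.2.2.1 1 0 ≠ 0 := by
    have h1 : ContDiffAt ℝ 1 (fun a : P5 n => a.2.2.2.1 1 0) (pt5 n ρ s y) :=
      contDiffAt_pi.1 (c_y 1) 0
    exact h1.continuousAt.eventually_ne h.y10
  have hall := (goo_ev B hb h).and (hsmall.and (hs1.and (hs2.and (hfut.and h10))))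
  filter_upwards [exists_sol B hb h hL hall] with x hx hx0
  obtain ⟨a, ⟨hgoo, h2, h3, h4, h5, h6⟩, ha1, ha2, hF⟩ := hx
  have ha0 : a.1 ≠ 0 := by rw [ha1]; exact hx0
  have hG := hgoo ha0 hF
  have hlen : ∀ c, 0 < len false (a.2.2.2.1 c) := fun c => len_pos (hG.pos c)
  have he : ∀ c, w c / |w c| = 1 ∨ w c / |w c| = -1 := by
    intro c
    rcases lt_or_gt_of_ne (h.w0 c) with hw | hw
    · right; rw [abs_of_neg hw, div_neg, div_self hw.ne]
    · left; rw [abs_of_pos hw, div_self hw.ne']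
  have hwf : ∀ c, wf w c a ≠ 0 := by
    intro c
    rw [wf]
    rcases he c with h1 | h1 <;> rw [h1]
    · rw [one_mul]; exact (hlen c).ne'
    · rw [neg_one_mul]; exact neg_ne_zero.2 (hlen c).ne'
  refine ⟨fun c => wf w c a, fun c => a.2.2.1 c, hwf, fun c => ?_, ?_⟩
  · have := hG.cst c
    rw [Cs, ha1, ha2] at this
    exact this
  have hdet : ∀ v, (vm (vl B hb a) v) 0 0 * (vm (vl B hb a) v) 1 1 -
      (vm (vl B hb a) v) 0 1 * (vm (vl B hb a) v) 1 0 = 1 := by
    intro v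
    rw [← Matrix.det_fin_two]; exact hG.det v
  set g : Fin n → (ℝ ≃o ℝ) := fun k => can (vm (vl B hb a) (FreeGroup.of k)) (hdet _) (h2 k).2
    with hg
  have hgl : ∀ k, IsLift (vm (vl B hb a) (FreeGroup.of k)) (g k) := fun k => can_isLift _ _ _
  have hgd : ∀ k t, |g k t - t| ≤ δ := fun k t => ((h2 k).1 t).le
  rw [← ha1]
  refine ⟨g, fun k t => (hgl k).per t, fun k => ?_, fun c => ?_, ?_⟩
  · have e1 := vm_isLift hgl (B.u k * FreeGroup.of (B.s k) * (B.u k)⁻¹ * (FreeGroup.of k)⁻¹)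
    have e2 : vm (vl B hb a) (B.u k * FreeGroup.of (B.s k) * (B.u k)⁻¹ * (FreeGroup.of k)⁻¹) = 1 :=
      congrArg Units.val (hG.rel k)
    rw [e2] at e1
    refine e1.eq_one (t₀ := 0) ?_
    have e3 := hLr k δ g hgd 0
    have e4 : (Lr k : ℝ) * δ ≤ N * δ := mul_le_mul_of_nonneg_right (hLrN k) hδ0.le
    linarith
  · have hy2 : 0 < w c / |w c| * a.2.2.2.1 c 2 := by
      have h1 : w c / |w c| * a.2.2.2.1 c 2 = (w c * a.2.2.2.1 c 2) / |w c| := by ring
      rw [h1]
      exact div_pos (h5 c) (abs_pos.2 (h.w0 c))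
    obtain ⟨f, hf, hf'⟩ := ell_param (hG.pos c) (he c) hy2
    have hwfe : ∀ τ : ℝ, τ * (w c / |w c| * len false (a.2.2.2.1 c)) = τ * wf w c a :=
      fun τ => rfl
    refine ⟨f, hf, ?_, ?_⟩
    · have k1 := hgl (base c)
      have k2 := hf' a.1
      rw [hwfe] at k2
      rw [hG.gen c] at k1
      have k3 := hgd (base c) 0
      have k4 := conj_sh_disp hf (h3 c).le 0
      have k5 : δ ≤ Real.pi / 2 := by
        have : (1 : ℝ) ≤ N := by
          have : 1 ≤ N := by omega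
          exact_mod_cast this
        nlinarith
      refine IsLift.ext k1 k2 (adj_mul (ex_det (hG.pos c) _)) (t₀ := 0) ?_
      rw [abs_le] at k3 k4
      rw [abs_lt]
      constructor <;> linarith [k3.1, k3.2, k4.1, k4.2]
    · have k1 := vm_isLift hgl (B.longitude (base c))
      have k2 := hf' (a.1 * a.2.2.1 c)
      rw [hwfe] at k2
      rw [hG.long c] at k1
      have k3 := hLl c δ g hgd 0
      have k4 := conj_sh_disp hf (h4 c).le 0
      have k5 : (Ll c : ℝ) * δ ≤ N * δ := mul_le_mul_of_nonneg_right (hLlN c) hδ0.le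
      refine IsLift.ext k1 k2 (adj_mul (ex_det (hG.pos c) _)) (t₀ := 0) ?_
      rw [abs_le] at k3 k4
      rw [abs_lt]
      constructor <;> linarith [k3.1, k3.2, k4.1, k4.2]
  · intro hcomm
    have k1 := (hgl (base 0)).mul (hgl (base 1))
    have k2 := (hgl (base 1)).mul (hgl (base 0))
    rw [← hcomm] at k2
    have k3 := IsLift_unique (by rw [Matrix.det_mul, hG.det, hG.det, one_mul])
      (by rw [Matrix.det_mul, hG.det, hG.det, one_mul]) k1 k2
    rw [hG.gen 0, hG.gen 1] at k3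
    have hS : ∀ c, sn false (a.1 * len false (a.2.2.2.1 c)) / len false (a.2.2.2.1 c) ≠ 0 := by
      intro c
      refine div_ne_zero ?_ (hlen c).ne'
      simp only [sn, Bool.false_eq_true, if_false]
      have e1 : |a.1 * len false (a.2.2.2.1 c)| < Real.pi := by
        have e2 := h3 c
        rw [wf] at e2
        rcases he c with e3 | e3
        · rwa [e3, one_mul] at e2
        · rw [e3, neg_one_mul, mul_neg, abs_neg] at e2
          exact e2
      have e4 : a.1 * len false (a.2.2.2.1 c) ≠ 0 := mul_ne_zero ha0 (hlen c).ne'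
      rw [abs_lt] at e1
      exact Real.sin_ne_zero_iff.2 fun m hm => by
        rw [← hm] at e1 e4
        have hm0 : (m : ℝ) ≠ 0 := fun h0 => e4 (by rw [h0, zero_mul])
        have hm1 : |(m : ℝ)| < 1 := by
          rw [abs_lt]
          constructor <;> nlinarith
        have hm2 : |m| < 1 := by exact_mod_cast hm1
        exact hm0 (by exact_mod_cast Int.abs_lt_one_iff.1 hm2)
    obtain ⟨p, hp⟩ : ∃ p : ℝ, p = sn false (a.1 * len false (a.2.2.2.1 0)) /
      len false (a.2.2.2.1 0) := ⟨_, rfl⟩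
    obtain ⟨q, hq⟩ : ∃ q : ℝ, q = sn false (a.1 * len false (a.2.2.2.1 1)) /
      len false (a.2.2.2.1 1) := ⟨_, rfl⟩
    have hp0 : p ≠ 0 := by rw [hp]; exact hS 0
    have hq0 : q ≠ 0 := by rw [hq]; exact hS 1
    have e1 := congrFun (congrFun k3 0) 1
    have e2 := congrFun (congrFun k3 1) 0
    simp only [Matrix.mul_apply, Fin.sum_univ_two, ex_00, ex_01, ex_10, ex_11, ← hp, ← hq,
      hG.y00, hG.y01] at e1 e2
    have e3 : p * q * (a.2.2.2.1 0 2 * a.2.2.2.1 1 0) = 0 := by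
      linear_combination (e1 + e2) / 4 * 1
    have hy02 : a.2.2.2.1 0 2 ≠ 0 := by
      intro h0
      have := h5 0
      rw [h0, mul_zero] at this
      exact lt_irrefl _ this
    exact mul_ne_zero (mul_ne_zero hp0 hq0) (mul_ne_zero hy02 h6) e3

end Pool.Agent.H42.LK
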