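import Pool.Agent.H42.ML.Redund

set_option autoImplicit false

/-!
# General facts on closed braids with three components
-/

namespace Pool.Agent.H42.LK

open Pool.Agent.H42.LO Pool.Agent.H42.ML

variable {n : ℕ} (B : Braid n) {base : Fin 3 → Fin n} (hb : B.IsBase base)

/-- `l c` is the linking number of the components `c + 1` and `c + 2`: the exponent sum of the
meridians of one of them in the longitude of the other one. -/
def HasLinking (B : Braid n) (base : Fin 3 → Fin n) (l : Fin 3 → ℤ) : Prop :=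
  ∀ c, (B.own (base (c + 1)) (B.longitude (base (c + 2)))).toAdd = l c ∧
    (B.own (base (c + 2)) (B.longitude (base (c + 1)))).toAdd = l c

theorem own_of (c : Fin 3) (k : Fin n) : (B.own (base c) (FreeGroup.of k)).toAdd =
    if B.comp hb k = c then 1 else 0 := by
  classical
  rw [Braid.own, FreeGroup.lift_apply_of]
  by_cases h : B.s.SameCycle (base c) k
  · rw [if_pos h, if_pos (B.comp_unique hb h).symm]; rfl
  · rw [if_neg h, if_neg]
    · rfl
    · rintro rfl
      exact h (B.comp_spec hb k)

/-- The value of a word under a homomorphism that only depends on the components. -/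
theorem chi_comp (F : Fin 3 → Mat) (v : FreeGroup (Fin n)) :
    chi (fun k => F (B.comp hb k)) v = ∑ c, (B.own (base c) v).toAdd • F c := by
  induction v using FreeGroup.induction_on with
  | C1 => simp
  | of k =>
    show chi (fun k => F (B.comp hb k)) (FreeGroup.of k) =
      ∑ c, (B.own (base c) (FreeGroup.of k)).toAdd • F c
    simp only [chi_of, own_of B hb]
    simp
  | inv_of k ih =>
    show chi (fun k => F (B.comp hb k)) (FreeGroup.of k)⁻¹ =
      ∑ c, (B.own (base c) (FreeGroup.of k)⁻¹).toAdd • F c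
    simp only [chi_inv, chi_of, map_inv, toAdd_inv, neg_smul, own_of B hb]
    simp
  | mul v w hv hw => simp only [chi_mul, hv, hw, map_mul, toAdd_mul, add_smul, Finset.sum_add_distrib]

include hb in
theorem own_longitude_self (c : Fin 3) :
    (B.own (base c) (B.longitude (base c))).toAdd = 0 := by
  rw [Braid.longitude, map_mul, map_zpow, toAdd_mul, toAdd_zpow, own_of B hb, B.comp_base hb,
    if_pos rfl]
  simp

theorem own_longitude {l : Fin 3 → ℤ} (hL : HasLinking B base l) (c : Fin 3) :
    (B.own (base (c + 1)) (B.longitude (base c))).toAdd = l (c + 2) ∧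
      (B.own (base (c + 2)) (B.longitude (base c))).toAdd = l (c + 1) := by
  have h1 := (hL (c + 2)).1
  have h2 := (hL (c + 1)).2
  have e1 : c + 2 + 1 = c := by fin_cases c <;> rfl
  have e2 : c + 2 + 2 = c + 1 := by fin_cases c <;> rfl
  have e3 : c + 1 + 1 = c + 2 := by fin_cases c <;> rfl
  have e4 : c + 1 + 2 = c := by fin_cases c <;> rfl
  have h3 := (hL (c + 2)).2
  have h4 := (hL (c + 1)).1
  rw [e1, e2] at h3
  rw [e3, e4] at h4
  exact ⟨h3, h4⟩

/-- The first order part of the longitude. -/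
theorem chi_longitude {l : Fin 3 → ℤ} (hL : HasLinking B base l) (F : Fin 3 → Mat) (c : Fin 3) :
    chi (fun k => F (B.comp hb k)) (B.longitude (base c)) =
      l (c + 2) • F (c + 1) + l (c + 1) • F (c + 2) := by
  rw [chi_comp B hb, ← (own_longitude B hL c).1, ← (own_longitude B hL c).2]
  have h0 := own_longitude_self B hb c
  have key : ∀ c : Fin 3, ∀ G : Fin 3 → Mat, ∑ d, G d = G c + G (c + 1) + G (c + 2) := by
    intro c G
    rw [Fin.sum_univ_three]
    fin_cases c
    · rfl
    · show G 0 + G 1 + G 2 = G 1 + G 2 + G 0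
      abel
    · show G 0 + G 1 + G 2 = G 2 + G 0 + G 1
      abel
  rw [key c, h0, zero_smul, zero_add]

section words

variable {A : Type*} [Ring A]

/-- The matrix of a word. -/
def vm (f : FreeGroup (Fin n) →* Aˣ) : FreeGroup (Fin n) →* A := (Units.coeHom A).comp f

theorem vm_inv (f : FreeGroup (Fin n) →* Aˣ) (v : FreeGroup (Fin n)) : vm f v * vm f v⁻¹ = 1 := by
  rw [← map_mul, mul_inv_cancel, map_one]

theorem vm_inv' (f : FreeGroup (Fin n) →* Aˣ) (v : FreeGroup (Fin n)) : vm f v⁻¹ * vm f v = 1 := by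
  rw [← map_mul, inv_mul_cancel, map_one]

/-- All relations hold except the closing ones. -/
def Open (B : Braid n) (base : Fin 3 → Fin n) {H : Type*} [Group H]
    (f : FreeGroup (Fin n) →* H) : Prop :=
  ∀ k, (∀ c, B.s k ≠ base c) →
    f (B.u k) * f (FreeGroup.of (B.s k)) * (f (B.u k))⁻¹ = f (FreeGroup.of k)

theorem close_diff (f : FreeGroup (Fin n) →* Aˣ) (hf : Open B base f) {k : Fin n} {c : Fin 3}
    (h : B.s k = base c) :
    vm f (B.u k * FreeGroup.of (B.s k) * (B.u k)⁻¹) - vm f (FreeGroup.of k) =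
      vm f (B.V hb k)⁻¹ * (vm f (B.longitude (base c)) * vm f (FreeGroup.of (base c)) -
        vm f (FreeGroup.of (base c)) * vm f (B.longitude (base c))) *
        vm f ((B.longitude (base c))⁻¹ * B.V hb k) := by
  have hc : B.comp hb k = c := by
    rw [← B.comp_s hb, h, B.comp_base hb]
  have h1 := B.V_conj hb f hf k
  rw [hc] at h1
  have h2 := B.V_close hb h
  have h3 : f (B.V hb k) * f (B.u k) =
      f (B.longitude (base c)) * f (FreeGroup.of (base c)) ^
        ((B.own (base c) (B.par (base c) (Function.minimalPeriod B.s (base c)))).toAdd) := by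
    rw [← map_mul, h2, Braid.longitude, map_mul, map_zpow, mul_assoc, ← zpow_add,
      neg_add_cancel, zpow_zero, mul_one]
  set N : ℤ := (B.own (base c) (B.par (base c) (Function.minimalPeriod B.s (base c)))).toAdd
  set v := f (B.V hb k) with hv
  set w := f (B.u k) with hw
  set x := f (FreeGroup.of (base c)) with hx
  set z := f (FreeGroup.of k) with hz
  set l := f (B.longitude (base c)) with hl
  have h4 : w = v⁻¹ * (l * x ^ N) := by rw [← h3]; group
  have h5 : z = v⁻¹ * x * v := by rw [← h1]; group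
  have h6 : w * x * w⁻¹ = v⁻¹ * (l * x * l⁻¹) * v := by
    rw [h4]
    have : x ^ N * x * (x ^ N)⁻¹ = x := by group
    calc v⁻¹ * (l * x ^ N) * x * (v⁻¹ * (l * x ^ N))⁻¹
        = v⁻¹ * (l * (x ^ N * x * (x ^ N)⁻¹) * l⁻¹) * v := by group
      _ = _ := by rw [this]
  have e1 : vm f (B.u k * FreeGroup.of (B.s k) * (B.u k)⁻¹) =
      ((v⁻¹ * (l * x * l⁻¹) * v : Aˣ) : A) := by
    rw [← h6, h]
    show ((f (B.u k * FreeGroup.of (base c) * (B.u k)⁻¹) : Aˣ) : A) = _
    rw [map_mul, map_mul, map_inv]
  have e2 : vm f (FreeGroup.of k) = ((v⁻¹ * x * v : Aˣ) : A) := by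
    rw [← h5]; rfl
  have e3 : vm f (B.V hb k)⁻¹ = ((v⁻¹ : Aˣ) : A) := by
    show ((f (B.V hb k)⁻¹ : Aˣ) : A) = _
    rw [map_inv]
  have e4 : vm f ((B.longitude (base c))⁻¹ * B.V hb k) = ((l⁻¹ * v : Aˣ) : A) := by
    show ((f ((B.longitude (base c))⁻¹ * B.V hb k) : Aˣ) : A) = _
    rw [map_mul, map_inv]
  have e5 : vm f (B.longitude (base c)) = ((l : Aˣ) : A) := rfl
  have e6 : vm f (FreeGroup.of (base c)) = ((x : Aˣ) : A) := rfl
  rw [e1, e2, e3, e4, e5, e6]
  simp only [Units.val_mul]
  have e7 : ((l : Aˣ) : A) * ((l⁻¹ : Aˣ) : A) = 1 := Units.mul_inv l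
  calc ((v⁻¹ : Aˣ) : A) * ((l : A) * x * ((l⁻¹ : Aˣ) : A)) * v -
        ((v⁻¹ : Aˣ) : A) * x * v
      = ((v⁻¹ : Aˣ) : A) * ((l : A) * x * ((l⁻¹ : Aˣ) : A)) * v -
        ((v⁻¹ : Aˣ) : A) * x * (((l : Aˣ) : A) * ((l⁻¹ : Aˣ) : A)) * v := by
        rw [e7, mul_one]
    _ = _ := by noncomm_ring

/-- The linear relation between the errors of the closing relations. -/
theorem closing_sum (f : FreeGroup (Fin n) →* Aˣ) (hf : Open B base f) :
    ∑ c, vm f (W1 B hb c) * (vm f (B.longitude (base c)) * vm f (FreeGroup.of (base c)) -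
        vm f (FreeGroup.of (base c)) * vm f (B.longitude (base c))) * vm f (W2 B hb c) = 0 := by
  set l₁ : List (FreeGroup (Fin n)) :=
    List.ofFn fun k => B.u k * FreeGroup.of (B.s k) * (B.u k)⁻¹ with hl₁
  set l₂ : List (FreeGroup (Fin n)) :=
    List.ofFn fun k => (FreeGroup.of k : FreeGroup (Fin n)) with hl₂
  have len₁ : l₁.length = n := by simp [hl₁]
  have len₂ : l₂.length = n := by simp [hl₂]
  have htel := telescope (l₁.map (vm f)) (l₂.map (vm f)) (by simp [len₁, len₂])
  rw [← map_list_prod, ← map_list_prod, B.prod_eq, sub_self, List.length_map, len₂,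
    ← Fin.sum_univ_eq_sum_range (fun i => ((l₁.map (vm f)).take i).prod *
      ((l₁.map (vm f)).getD i 0 - (l₂.map (vm f)).getD i 0) *
      ((l₂.map (vm f)).drop (i + 1)).prod)] at htel
  have hterm : ∀ k : Fin n, ((l₁.map (vm f)).take (k : ℕ)).prod *
      ((l₁.map (vm f)).getD (k : ℕ) 0 - (l₂.map (vm f)).getD (k : ℕ) 0) *
      ((l₂.map (vm f)).drop ((k : ℕ) + 1)).prod =
      vm f (l₁.take k).prod *
        (vm f (B.u k * FreeGroup.of (B.s k) * (B.u k)⁻¹) - vm f (FreeGroup.of k)) *
        vm f (l₂.drop (k + 1)).prod := by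
    intro k
    have g1 : (l₁.map (vm f)).getD (k : ℕ) 0 =
        vm f (B.u k * FreeGroup.of (B.s k) * (B.u k)⁻¹) := by
      rw [List.getD_eq_getElem _ _ (by simp [len₁])]
      simp [hl₁]
    have g2 : (l₂.map (vm f)).getD (k : ℕ) 0 = vm f (FreeGroup.of k) := by
      rw [List.getD_eq_getElem _ _ (by simp [len₂])]
      simp [hl₂]
    rw [g1, g2, ← List.map_take, ← List.map_drop, map_list_prod, map_list_prod]
  simp only [hterm] at htel
  have hinj : Function.Injective (fun c : Fin 3 => B.s⁻¹ (base c)) := by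
    intro c d hcd
    exact B.base_injective hb (B.s⁻¹.injective hcd)
  have hsum := Fintype.sum_of_injective (fun c : Fin 3 => B.s⁻¹ (base c)) hinj
    (fun c => vm f (W1 B hb c) * (vm f (B.longitude (base c)) * vm f (FreeGroup.of (base c)) -
        vm f (FreeGroup.of (base c)) * vm f (B.longitude (base c))) * vm f (W2 B hb c))
    (fun k => vm f (l₁.take k).prod *
        (vm f (B.u k * FreeGroup.of (B.s k) * (B.u k)⁻¹) - vm f (FreeGroup.of k)) *
        vm f (l₂.drop (k + 1)).prod)
    (by
      intro k hk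
      have hnb : ∀ c, B.s k ≠ base c := by
        intro c hc
        exact hk ⟨c, by show B.s⁻¹ (base c) = k; rw [← hc]; simp⟩
      have h3 : vm f (B.u k * FreeGroup.of (B.s k) * (B.u k)⁻¹) =
          vm f (FreeGroup.of k) := by
        have := hf k hnb
        rw [← map_mul, ← map_inv, ← map_mul] at this
        exact congrArg Units.val this
      rw [h3, sub_self, mul_zero, zero_mul])
    (by
      intro c
      have hs : B.s (B.s⁻¹ (base c)) = base c := by simp
      have h1 := close_diff B hb f hf hs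
      show _ = vm f (l₁.take (B.s⁻¹ (base c) : Fin n)).prod *
        (vm f (B.u (B.s⁻¹ (base c)) * FreeGroup.of (B.s (B.s⁻¹ (base c))) *
          (B.u (B.s⁻¹ (base c)))⁻¹) - vm f (FreeGroup.of (B.s⁻¹ (base c)))) *
        vm f (l₂.drop ((B.s⁻¹ (base c) : Fin n) + 1)).prod
      rw [h1, W1, W2, ← hl₁, ← hl₂, map_mul, map_mul (vm f) ((B.longitude (base c))⁻¹ *
        B.V hb (B.s⁻¹ (base c)))]
      simp only [mul_assoc])
  rw [← hsum] at htel
  exact htel.symm

end words

include hb in
/-- If the base meridians have determinant one and all relations except the closing ones hold then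
all words have determinant one. -/
theorem det_words (f : FreeGroup (Fin n) →* Matˣ) (hf : Open B base f)
    (hdet : ∀ c, (vm f (FreeGroup.of (base c))).det = 1) (v : FreeGroup (Fin n)) :
    (vm f v).det = 1 := by
  have hgen : ∀ k, (vm f (FreeGroup.of k)).det = 1 := by
    intro k
    have h1 := B.V_conj hb f hf k
    have h2 : vm f (B.V hb k) * vm f (FreeGroup.of k) * vm f (B.V hb k)⁻¹ =
        vm f (FreeGroup.of (base (B.comp hb k))) := by
      rw [← map_mul, ← map_mul]
      show ((f _ : Matˣ) : Mat) = ((f _ : Matˣ) : Mat)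
      rw [map_mul, map_mul, map_inv, h1]
    have h3 := congrArg Matrix.det h2
    rw [Matrix.det_mul, Matrix.det_mul, hdet] at h3
    have h4 := congrArg Matrix.det (vm_inv f (B.V hb k))
    rw [Matrix.det_mul, Matrix.det_one] at h4
    calc (vm f (FreeGroup.of k)).det
        = (vm f (FreeGroup.of k)).det *
          ((vm f (B.V hb k)).det * (vm f (B.V hb k)⁻¹).det) := by rw [h4, mul_one]
      _ = 1 := by rw [← h3]; ring
  induction v using FreeGroup.induction_on with
  | C1 => simp
  | of k => exact hgen k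
  | inv_of k ih =>
    have h4 := congrArg Matrix.det (vm_inv f (FreeGroup.of k))
    rw [Matrix.det_mul, Matrix.det_one, hgen k, one_mul] at h4
    exact h4
  | mul v w hv hw => rw [map_mul, Matrix.det_mul, hv, hw, one_mul]

end Pool.Agent.H42.LK
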