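import Pool.Agent.H42.LK.Twist

set_option autoImplicit false

/-!
# The order of the first homology group of a surgery
-/

namespace Pool.Agent.H42.LK

open Pool.Agent.H42.ML

variable {n : ℕ} (B : Braid n) {base : Fin 3 → Fin n} (hb : B.IsBase base)

/-- The exponent sums of a word, one for each component. -/
noncomputable def expo (base : Fin 3 → Fin n) (w : FreeGroup (Fin n)) : Fin 3 → ℤ :=
  fun c => (B.own (base c) w).toAdd

theorem expo_one : expo B base 1 = 0 := by
  funext c; simp [expo]

theorem expo_mul (v w : FreeGroup (Fin n)) :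
    expo B base (v * w) = expo B base v + expo B base w := by
  funext c; simp [expo]

theorem expo_inv (v : FreeGroup (Fin n)) : expo B base v⁻¹ = - expo B base v := by
  funext c; simp [expo]

theorem expo_zpow (v : FreeGroup (Fin n)) (m : ℤ) :
    expo B base (v ^ m) = m • expo B base v := by
  funext c; simp [expo, toAdd_zpow]

include hb in
theorem expo_of (k : Fin n) : expo B base (FreeGroup.of k) = Pi.single (B.comp hb k) 1 := by
  funext c
  rw [expo, own_of B hb]
  by_cases h : B.comp hb k = c
  · rw [if_pos h, ← h, Pi.single_eq_same]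
  · rw [if_neg h, Pi.single_eq_of_ne (fun h' => h h'.symm)]

include hb in
theorem expo_link (k : Fin n) :
    expo B base (B.u k * FreeGroup.of (B.s k) * (B.u k)⁻¹ * (FreeGroup.of k)⁻¹) = 0 := by
  rw [expo_mul, expo_mul, expo_mul, expo_inv, expo_inv, expo_of B hb, expo_of B hb, B.comp_s hb]
  abel

/-- The matrix of the relations `p c m (c) + q c (l (c + 2) m (c + 1) + l (c + 1) m (c + 2)) = 0`
between the classes of the meridians. -/
def relMat (l p q : Fin 3 → ℤ) : Matrix (Fin 3) (Fin 3) ℤ :=
  fun c d => if d = c then p c else if d = c + 1 then q c * l (c + 2) else q c * l (c + 1)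

theorem fin3_cases (c d : Fin 3) : d = c ∨ d = c + 1 ∨ d = c + 2 := by
  revert c d; decide

theorem fin3_ne1 (c : Fin 3) : c + 1 ≠ c := by revert c; decide
theorem fin3_ne2 (c : Fin 3) : c + 2 ≠ c := by revert c; decide
theorem fin3_ne3 (c : Fin 3) : c + 2 ≠ c + 1 := by revert c; decide

include hb in
theorem expo_surg {l : Fin 3 → ℤ} (hL : HasLinking B base l) (p q : Fin 3 → ℤ) (c : Fin 3) :
    expo B base (FreeGroup.of (base c) ^ p c * B.longitude (base c) ^ q c) = relMat l p q c := by
  rw [expo_mul, expo_zpow, expo_zpow, expo_of B hb, B.comp_base hb]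
  funext d
  simp only [Pi.add_apply, Pi.smul_apply, smul_eq_mul, expo, relMat]
  rcases fin3_cases c d with rfl | rfl | rfl
  · rw [own_longitude_self B hb, Pi.single_eq_same, if_pos rfl]; ring
  · rw [(own_longitude B hL c).1, Pi.single_eq_of_ne (fin3_ne1 c), if_neg (fin3_ne1 c), if_pos rfl]
    ring
  · rw [(own_longitude B hL c).2, Pi.single_eq_of_ne (fin3_ne2 c), if_neg (fin3_ne2 c),
      if_neg (fin3_ne3 c)]
    ring

theorem relMat_det (l p q : Fin 3 → ℤ) : (relMat l p q).det =
    p 0 * p 1 * p 2 + 2 * (q 0 * q 1 * q 2) * (l 0 * l 1 * l 2) - p 0 * q 1 * q 2 * l 0 ^ 2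
      - p 1 * q 0 * q 2 * l 1 ^ 2 - p 2 * q 0 * q 1 * l 2 ^ 2 := by
  rw [Matrix.det_fin_three]
  have m00 : relMat l p q 0 0 = p 0 := rfl
  have m01 : relMat l p q 0 1 = q 0 * l 2 := rfl
  have m02 : relMat l p q 0 2 = q 0 * l 1 := rfl
  have m10 : relMat l p q 1 0 = q 1 * l 2 := rfl
  have m11 : relMat l p q 1 1 = p 1 := rfl
  have m12 : relMat l p q 1 2 = q 1 * l 0 := rfl
  have m20 : relMat l p q 2 0 = q 2 * l 1 := rfl
  have m21 : relMat l p q 2 1 = q 2 * l 0 := rfl
  have m22 : relMat l p q 2 2 = p 2 := rfl
  rw [m00, m01, m02, m10, m11, m12, m20, m21, m22]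
  ring

/-- The subgroup of the relations. -/
noncomputable def relSub (M : Matrix (Fin 3) (Fin 3) ℤ) : Submodule ℤ (Fin 3 → ℤ) :=
  LinearMap.range (Matrix.toLin' M.transpose)

theorem row_mem (M : Matrix (Fin 3) (Fin 3) ℤ) (c : Fin 3) : (M c : Fin 3 → ℤ) ∈ relSub M := by
  refine ⟨Pi.single c 1, ?_⟩
  rw [Matrix.toLin'_apply]
  funext d
  simp [Matrix.mulVec_single]

theorem card_quot (M : Matrix (Fin 3) (Fin 3) ℤ) (h : M.det ≠ 0) :
    Nat.card ((Fin 3 → ℤ) ⧸ relSub M) = M.det.natAbs := by
  have hinj : Function.Injective (Matrix.toLin' M.transpose) := by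
    rw [← LinearMap.ker_eq_bot, LinearMap.ker_eq_bot']
    intro v hv
    refine Matrix.eq_zero_of_mulVec_eq_zero (M := M.transpose) ?_ ?_
    · rwa [Matrix.det_transpose]
    · rwa [Matrix.toLin'_apply] at hv
  have h1 := Submodule.natAbs_det_equiv (relSub M) (LinearEquiv.ofInjective _ hinj)
  refine h1.symm.trans ?_
  rw [← Matrix.det_transpose, ← LinearMap.det_toLin']
  rfl

/-- The homomorphism from the free group to the group given by the relations. -/
noncomputable def toQ (M : Matrix (Fin 3) (Fin 3) ℤ) :
    FreeGroup (Fin n) →* Multiplicative ((Fin 3 → ℤ) ⧸ relSub M) :=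
  FreeGroup.lift fun k => Multiplicative.ofAdd (Submodule.Quotient.mk (Pi.single (B.comp hb k) 1))

theorem toQ_eq (M : Matrix (Fin 3) (Fin 3) ℤ) (w : FreeGroup (Fin n)) :
    toQ B hb M w = Multiplicative.ofAdd (Submodule.Quotient.mk (expo B base w)) := by
  induction w using FreeGroup.induction_on with
  | C1 => rw [map_one, expo_one, Submodule.Quotient.mk_zero]; rfl
  | of k =>
    show toQ B hb M (FreeGroup.of k) = _
    rw [toQ, FreeGroup.lift_apply_of]
    show _ = Multiplicative.ofAdd (Submodule.Quotient.mk (expo B base (FreeGroup.of k)))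
    rw [expo_of B hb]
  | inv_of k ih =>
    show toQ B hb M (FreeGroup.of k)⁻¹ =
      Multiplicative.ofAdd (Submodule.Quotient.mk (expo B base (FreeGroup.of k)⁻¹))
    rw [map_inv, expo_inv, Submodule.Quotient.mk_neg, ofAdd_neg]
    congr 1
  | mul v w hv hw =>
    rw [map_mul, hv, hw, expo_mul, Submodule.Quotient.mk_add, ofAdd_add]

section H1

variable {l : Fin 3 → ℤ} (p q : Fin 3 → ℤ)

/-- The first homology group of the surgery. -/
abbrev H1 (base : Fin 3 → Fin n) : Type := Abelianization (B.SurgeryGroup base p q)

/-- The class of a word in the first homology group. -/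
noncomputable def h1cls (base : Fin 3 → Fin n) : FreeGroup (Fin n) →* H1 B p q base :=
  Abelianization.of.comp (PresentedGroup.mk (B.surgeryRels base p q))

theorem h1cls_surj (a : H1 B p q base) : ∃ w, h1cls B p q base w = a := by
  obtain ⟨g, rfl⟩ : ∃ g, Abelianization.of g = a := QuotientGroup.mk_surjective a
  obtain ⟨w, rfl⟩ := PresentedGroup.mk_surjective _ g
  exact ⟨w, rfl⟩

theorem h1cls_rel {r : FreeGroup (Fin n)} (hr : r ∈ B.surgeryRels base p q) :
    h1cls B p q base r = 1 := by
  show Abelianization.of (PresentedGroup.mk (B.surgeryRels base p q) r) = 1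
  rw [(PresentedGroup.mk_eq_one_iff).2 (Subgroup.subset_normalClosure hr), map_one]

theorem h1cls_s (k : Fin n) :
    h1cls B p q base (FreeGroup.of (B.s k)) = h1cls B p q base (FreeGroup.of k) := by
  have h := h1cls_rel B p q (base := base) (Or.inl ⟨k, rfl⟩)
  rw [map_mul, map_mul, map_mul, map_inv, map_inv, mul_inv_eq_one] at h
  rw [← h, mul_comm (h1cls B p q base (B.u k)), mul_assoc, mul_inv_cancel, mul_one]

include hb in
theorem h1cls_of (k : Fin n) : h1cls B p q base (FreeGroup.of k) =
    h1cls B p q base (FreeGroup.of (base (B.comp hb k))) := by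
  have key : ∀ (i : ℕ) (j : Fin n), h1cls B p q base (FreeGroup.of ((B.s ^ i) j)) =
      h1cls B p q base (FreeGroup.of j) := by
    intro i j
    induction i with
    | zero => rfl
    | succ i ih => rw [pow_succ', Equiv.Perm.mul_apply, h1cls_s, ih]
  have h := key (B.idx hb k) (base (B.comp hb k))
  rwa [B.idx_spec hb] at h

/-- The homomorphism from the lattice to the first homology group. -/
noncomputable def psi (base : Fin 3 → Fin n) :
    (Fin 3 → ℤ) →ₗ[ℤ] Additive (H1 B p q base) :=
  Fintype.linearCombination ℤ fun c => Additive.ofMul (h1cls B p q base (FreeGroup.of (base c)))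

include hb in
theorem psi_expo (w : FreeGroup (Fin n)) :
    psi B p q base (expo B base w) = Additive.ofMul (h1cls B p q base w) := by
  induction w using FreeGroup.induction_on with
  | C1 => rw [expo_one, map_zero, map_one]; rfl
  | of k =>
    show psi B p q base (expo B base (FreeGroup.of k)) =
      Additive.ofMul (h1cls B p q base (FreeGroup.of k))
    rw [expo_of B hb, psi, Fintype.linearCombination_apply_single, one_smul,
      h1cls_of B hb p q k]
  | inv_of k ih =>
    show psi B p q base (expo B base (FreeGroup.of k)⁻¹) =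
      Additive.ofMul (h1cls B p q base (FreeGroup.of k)⁻¹)
    rw [expo_inv, map_neg, map_inv, ofMul_inv]
    congr 1
  | mul v w hv hw => rw [expo_mul, map_add, hv, hw, map_mul, ofMul_mul]

include hb in
theorem card_H1 (hL : HasLinking B base l) (hdet : (relMat l p q).det ≠ 0) :
    Nat.card (Abelianization (B.SurgeryGroup base p q)) = (relMat l p q).det.natAbs := by
  rw [← card_quot _ hdet]
  have hrel : ∀ r ∈ B.surgeryRels base p q,
      FreeGroup.lift (fun k => Multiplicative.ofAdd (Submodule.Quotient.mk
        (Pi.single (B.comp hb k) 1) : (Fin 3 → ℤ) ⧸ relSub (relMat l p q))) r = 1 := by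
    intro r hr
    have h1 : toQ B hb (relMat l p q) r = 1 := by
      rw [toQ_eq]
      have h2 : expo B base r ∈ relSub (relMat l p q) := by
        rcases hr with ⟨k, rfl⟩ | ⟨c, rfl⟩
        · rw [expo_link B hb]; exact Submodule.zero_mem _
        · rw [expo_surg B hb hL]; exact row_mem _ c
      rw [(Submodule.Quotient.mk_eq_zero _).2 h2]; rfl
    exact h1
  let F : B.SurgeryGroup base p q →* Multiplicative ((Fin 3 → ℤ) ⧸ relSub (relMat l p q)) :=
    PresentedGroup.toGroup hrel
  let F' : Abelianization (B.SurgeryGroup base p q) →*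
      Multiplicative ((Fin 3 → ℤ) ⧸ relSub (relMat l p q)) := Abelianization.lift F
  have hF : ∀ w, F' (h1cls B p q base w) =
      Multiplicative.ofAdd (Submodule.Quotient.mk (expo B base w)) := by
    intro w
    rw [← toQ_eq B hb]
    show Abelianization.lift F (Abelianization.of (PresentedGroup.mk _ w)) = _
    rw [Abelianization.lift_apply_of]
    have : F.comp (PresentedGroup.mk (B.surgeryRels base p q)) = toQ B hb (relMat l p q) := by
      ext k
      show F (PresentedGroup.of k) = _
      rw [PresentedGroup.toGroup.of, toQ, FreeGroup.lift_apply_of]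
      rfl
    exact DFunLike.congr_fun this w
  have hker : relSub (relMat l p q) ≤ LinearMap.ker (psi B p q base) := by
    rintro _ ⟨v, rfl⟩
    rw [LinearMap.mem_ker]
    have : (psi B p q base).comp (Matrix.toLin' (relMat l p q).transpose) = 0 := by
      apply LinearMap.pi_ext'
      intro c
      ext
      simp only [LinearMap.comp_apply, LinearMap.single_apply, LinearMap.zero_apply]
      have h3 : Matrix.toLin' (relMat l p q).transpose (Pi.single c 1) = relMat l p q c := by
        rw [Matrix.toLin'_apply]
        funext d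
        simp [Matrix.mulVec_single]
      rw [h3, ← expo_surg B hb hL, psi_expo B hb, h1cls_rel B p q (Or.inr ⟨c, rfl⟩)]
      rfl
    exact LinearMap.congr_fun this v
  have hbij : Function.Bijective F' := by
    constructor
    · rw [injective_iff_map_eq_one]
      intro a ha
      obtain ⟨w, rfl⟩ := h1cls_surj B p q a
      rw [hF] at ha
      have h2 : (Submodule.Quotient.mk (expo B base w) : (Fin 3 → ℤ) ⧸ relSub (relMat l p q)) = 0 :=
        ha
      have h3 := hker ((Submodule.Quotient.mk_eq_zero _).1 h2)
      rw [LinearMap.mem_ker, psi_expo B hb] at h3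
      exact h3
    · intro x
      obtain ⟨v, hv⟩ := Submodule.Quotient.mk_surjective _ (Multiplicative.toAdd x)
      refine ⟨h1cls B p q base (FreeGroup.of (base 0) ^ v 0 * FreeGroup.of (base 1) ^ v 1 *
        FreeGroup.of (base 2) ^ v 2), ?_⟩
      rw [hF]
      have h4 : expo B base (FreeGroup.of (base 0) ^ v 0 * FreeGroup.of (base 1) ^ v 1 *
          FreeGroup.of (base 2) ^ v 2) = v := by
        rw [expo_mul, expo_mul, expo_zpow, expo_zpow, expo_zpow, expo_of B hb, expo_of B hb,
          expo_of B hb, B.comp_base hb, B.comp_base hb, B.comp_base hb]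
        funext d
        fin_cases d <;> simp
      rw [h4, hv]
      rfl
  exact Nat.card_eq_of_bijective F' hbij

end H1

/-- If the components have a triple linking number, then their linking numbers are zero. -/
theorem linking_zero {n : ℕ} {B : Braid n} {base : Fin 3 → Fin n} (hb : B.IsBase base) {μ : ℤ}
    (hL : B.HasTripleLinking base μ) : HasLinking B base 0 := by
  have hle : ∀ d, Subgroup.normalClosure B.linkRels ≤ (B.own (base d)).ker := by
    intro d
    apply Subgroup.normalClosure_le_normal
    rintro _ ⟨k, rfl⟩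
    show B.own (base d) _ = 1
    have h := congrFun (expo_link B hb k) d
    simp only [expo, Pi.zero_apply] at h
    exact h
  have key : ∀ c d, (B.own (base d) (B.longitude (base c))).toAdd = 0 := by
    intro c d
    let f : B.LinkGroup →* Multiplicative ℤ :=
      QuotientGroup.lift (Subgroup.normalClosure B.linkRels) (B.own (base d)) (hle d)
    have hf : ∀ w, f (B.cls w) = B.own (base d) w := fun w => rfl
    have h1 := Subgroup.commutator_le_left _ _ (hL c)
    have h2 := Abelianization.commutator_subset_ker f h1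
    rw [MonoidHom.mem_ker, map_mul, map_zpow, map_commutatorElement, hf,
      commutatorElement_eq_one_iff_mul_comm.2 (mul_comm _ _), one_zpow, mul_one] at h2
    rw [h2]; rfl
  exact fun c => ⟨key _ _, key _ _⟩

end Pool.Agent.H42.LK
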