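import Pool.Agent.H42.LK.Sol

set_option autoImplicit false

/-!
# The remaining equations follow
-/

namespace Pool.Agent.H42.LK

open Pool.Agent.H42.LO Pool.Agent.H42.ML Filter Topology
open scoped Matrix.Norms.Operator

variable {n : ℕ} (B : Braid n) {base : Fin 3 → Fin n} (hb : B.IsBase base)
variable {l : Fin 3 → ℤ} {κ : ℝ} {α β ρ s w : Fin 3 → ℝ} {y : Fin 3 → Fin 3 → ℝ}

theorem vm_tendsto (hy : ∀ c, 0 < kap false * nrm (y c)) (v : FreeGroup (Fin n)) :
    Tendsto (fun a => vm (vl B hb a) v) (𝓝 (pt5 n ρ s y)) (𝓝 (1 : Mat)) := by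
  have h1 := Rm_eq (ρ := ρ) (s := s) B hb hy v
  have h2 : ContDiffAt ℝ 1 (fun a => 1 + a.1 • fw B hb v a + a.1 ^ 2 • Rm B hb hy ρ s v a)
      (pt5 n ρ s y) :=
    (contDiffAt_const.add (c_eps.smul (c_fw B hb v))).add
      ((c_eps.pow 2).smul (c_Rm B hb hy v))
  have h3 := h2.continuousAt.tendsto
  have h4 : 1 + (pt5 n ρ s y).1 • fw B hb v (pt5 n ρ s y) +
      (pt5 n ρ s y).1 ^ 2 • Rm B hb hy ρ s v (pt5 n ρ s y) = 1 := by simp [pt5]
  rw [h4] at h3
  refine h3.congr' ?_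
  filter_upwards [h1] with a ha
  exact ha.symm

theorem c_len (hy : ∀ c, 0 < kap false * nrm (y c)) (c : Fin 3) :
    ContDiffAt ℝ 1 (fun a : P5 n => len false (a.2.2.2.1 c)) (pt5 n ρ s y) := by
  have hi : ∀ i, ContDiffAt ℝ 1 (fun a : P5 n => a.2.2.2.1 c i) (pt5 n ρ s y) :=
    fun i => contDiffAt_pi.1 (c_y c) i
  have hn : ContDiffAt ℝ 1 (fun a : P5 n => kap false * nrm (a.2.2.2.1 c)) (pt5 n ρ s y) :=
    contDiffAt_const.mul ((((hi 0).pow 2).add ((hi 1).pow 2)).sub ((hi 2).pow 2))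
  exact hn.sqrt (hy c).ne'

/-- The factor in the expansion of the sine. -/
noncomputable def wtt (c : Fin 3) (a : P5 n) : ℝ :=
  1 + a.1 * (len false (a.2.2.2.1 c) * gs false (a.1 * len false (a.2.2.2.1 c)))

theorem wtt_tendsto (hy : ∀ c, 0 < kap false * nrm (y c)) (c : Fin 3) :
    Tendsto (fun a : P5 n => wtt c a) (𝓝 (pt5 n ρ s y)) (𝓝 1) := by
  have hl := c_len (n := n) (ρ := ρ) (s := s) hy c
  have hz : ContDiffAt ℝ 1 (fun a : P5 n => a.1 * len false (a.2.2.2.1 c)) (pt5 n ρ s y) :=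
    c_eps.mul hl
  have hs : ContDiffAt ℝ 1 (fun a : P5 n => gs false (a.1 * len false (a.2.2.2.1 c)))
      (pt5 n ρ s y) := by
    have := gs_cont false
    have hz0 : (pt5 n ρ s y).1 * len false ((pt5 n ρ s y).2.2.2.1 c) = 0 := by simp [pt5]
    rw [← hz0] at this
    exact this.comp (pt5 n ρ s y) hz
  have h2 : ContDiffAt ℝ 1 (fun a : P5 n => wtt c a) (pt5 n ρ s y) :=
    contDiffAt_const.add (c_eps.mul (hl.mul hs))
  have h3 := h2.continuousAt.tendsto
  have h4 : wtt c (pt5 n ρ s y) = 1 := by simp [wtt, pt5]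
  rwa [h4] at h3

/-- The first consequences of the equations. -/
structure Bas (a : P5 n) (P : Fin 3 → Mat) : Prop where
  pos : ∀ c, 0 < kap false * nrm (a.2.2.2.1 c)
  gen : ∀ c, vm (vl B hb a) (FreeGroup.of (base c)) = ex false (a.2.2.2.1 c) a.1
  opn : Open B base (vl B hb a)
  long : ∀ c, vm (vl B hb a) (B.longitude (base c)) =
    ex false (a.2.2.2.1 c) (a.1 * a.2.2.1 c) + a.1 • P c
  p0 : ∀ i, coord (P 0) i = 0
  p10 : coord (P 1) 0 = 0
  p12 : coord (P 1) 2 = 0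
  p22 : coord (P 2) 2 = 0

theorem bas_ev (h : BP l κ α β ρ s w y) :
    ∀ᶠ a in 𝓝 (pt5 n ρ s y), FF B hb h.pos κ α β w ρ s a = 0 → ∃ P, Bas B hb a P := by
  have hX : ∀ᶠ a in 𝓝 (pt5 n ρ s y), ∀ k, (XU B hb k a : Mat) = XX B hb k a :=
    eventually_all.2 fun k => XU_eq B hb h.pos k
  have hR : ∀ᶠ a in 𝓝 (pt5 n ρ s y), ∀ k, (vl B hb a (rel B k) : Mat) =
      1 + a.1 • fw B hb (rel B k) a + a.1 ^ 2 • Rm B hb h.pos ρ s (rel B k) a :=
    eventually_all.2 fun k => Rm_eq B hb h.pos _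
  have hL : ∀ᶠ a in 𝓝 (pt5 n ρ s y), ∀ c, (vl B hb a (B.longitude (base c)) : Mat) =
      1 + a.1 • fw B hb (B.longitude (base c)) a +
        a.1 ^ 2 • Rm B hb h.pos ρ s (B.longitude (base c)) a :=
    eventually_all.2 fun c => Rm_eq B hb h.pos _
  have hpos : ∀ᶠ a in 𝓝 (pt5 n ρ s y), ∀ c, 0 < kap false * nrm (a.2.2.2.1 c) := by
    refine eventually_all.2 fun c => ?_
    have hi : ∀ i, ContDiffAt ℝ 1 (fun a : P5 n => a.2.2.2.1 c i) (pt5 n ρ s y) :=
      fun i => contDiffAt_pi.1 (c_y c) i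
    have hn : ContDiffAt ℝ 1 (fun a : P5 n => kap false * nrm (a.2.2.2.1 c)) (pt5 n ρ s y) :=
      contDiffAt_const.mul ((((hi 0).pow 2).add ((hi 1).pow 2)).sub ((hi 2).pow 2))
    exact continuousAt_const.eventually_lt hn.continuousAt (h.pos c)
  filter_upwards [hpos, hX, hR, hL] with a hpos h1 h2 h3 hF
  have hF1 : ∀ i, coord (Ps B hb h.pos ρ s 0 a) i = 0 :=
    fun i => congrFun (congrArg (fun w => w.1) hF) i
  have hF2 : (![coord (Ps B hb h.pos ρ s 1 a) 0, coord (Ps B hb h.pos ρ s 1 a) 2,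
      coord (Ps B hb h.pos ρ s 2 a) 2] : Fin 3 → ℝ) = 0 := congrArg (fun w => w.2.1) hF
  have hF5 : ∀ k, (FF B hb h.pos κ α β w ρ s a).2.2.2.2 k = 0 :=
    fun k => congrFun (congrArg (fun w => w.2.2.2.2) hF) k
  refine ⟨fun c => Ps B hb h.pos ρ s c a, hpos, fun c => ?_, fun j hj => ?_, fun c => ?_, hF1,
    congrFun hF2 0, congrFun hF2 1, congrFun hF2 2⟩
  · have hbc : a.2.2.2.2 (base c) = 0 := by
      have := hF5 (base c)
      simp only [FF] at this
      rwa [if_pos ⟨c, rfl⟩] at this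
    have e1 : vm (vl B hb a) (FreeGroup.of (base c)) = XX B hb (base c) a := by
      rw [← h1]
      simp [vm, vl]
    rw [e1, XX, ex_eq (hpos c), gN, g0, B.comp_base hb, B.V_base hb, hbc]
    simp [fw, Yk]
  · have hk : ¬ ∃ c, B.s j = base c := fun ⟨c, hc⟩ => hj c hc
    have hk0 : Rm B hb h.pos ρ s (rel B (B.s j)) a = 0 := by
      have := hF5 (B.s j)
      simp only [FF] at this
      rwa [if_neg hk] at this
    have hs : B.s⁻¹ (B.s j) = j := by simp
    have hc := B.comp_s hb j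
    have hf : fw B hb (rel B (B.s j)) a = 0 := by
      rw [fw, rel, hs, chi_mul, chi_mul, chi_mul, chi_inv, chi_inv, chi_of, chi_of, hc]
      abel
    have h4 := h2 (B.s j)
    rw [hk0, hf] at h4
    have h5 : vl B hb a (rel B (B.s j)) = 1 := by
      apply Units.ext
      rw [h4]
      simp
    rw [rel, hs, map_mul, map_mul, map_mul, map_inv, map_inv, mul_inv_eq_one] at h5
    exact h5
  · have e1 : vm (vl B hb a) (B.longitude (base c)) =
      (vl B hb a (B.longitude (base c)) : Mat) := rfl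
    rw [e1, h3 c, ex_eq (hpos c), Ps, Yk]
    rw [smul_sub, smul_add, smul_add, smul_smul, smul_smul, smul_smul,
      show a.1 * (a.1 * a.2.2.1 c ^ 2) = (a.1 * a.2.2.1 c) ^ 2 by ring,
      show a.1 * a.1 = a.1 ^ 2 by ring]
    abel

theorem bracket_scalar (P : Mat) (z : Fin 3 → ℝ) :
    P * Yv z - Yv z * P = Yv (br (coord P) z) := by
  have h1 := decomp P
  have h2 : P * Yv z - Yv z * P = Yv (coord P) * Yv z - Yv z * Yv (coord P) := by
    conv_lhs => rw [h1]
    simp only [add_mul, mul_add, smul_mul_assoc, mul_smul_comm, one_mul, mul_one]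
    abel
  rw [h2, Yv_bracket]; rfl

theorem comm_P {a : P5 n} {c : Fin 3} (hpos : 0 < kap false * nrm (a.2.2.2.1 c)) (P : Mat)
    (τ : ℝ) :
    (ex false (a.2.2.2.1 c) τ + a.1 • P) * ex false (a.2.2.2.1 c) a.1 -
      ex false (a.2.2.2.1 c) a.1 * (ex false (a.2.2.2.1 c) τ + a.1 • P) =
    (a.1 ^ 2 * wtt c a) • Yv (br (coord P) (a.2.2.2.1 c)) := by
  have hl := (len_pos hpos).ne'
  have e1 : sn false (a.1 * len false (a.2.2.2.1 c)) / len false (a.2.2.2.1 c) =
      a.1 * wtt c a := by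
    rw [gs_eq, wtt]; field_simp
  obtain ⟨γ, hγ⟩ : ∃ γ : ℝ, γ = cs false (a.1 * len false (a.2.2.2.1 c)) := ⟨_, rfl⟩
  have e2 : ex false (a.2.2.2.1 c) a.1 = γ • (1 : Mat) + (a.1 * wtt c a) • Yv (a.2.2.2.1 c) := by
    rw [ex, e1, hγ]
  have e3 : (ex false (a.2.2.2.1 c) τ + a.1 • P) * ex false (a.2.2.2.1 c) a.1 -
      ex false (a.2.2.2.1 c) a.1 * (ex false (a.2.2.2.1 c) τ + a.1 • P) =
      a.1 • (P * ex false (a.2.2.2.1 c) a.1 - ex false (a.2.2.2.1 c) a.1 * P) := by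
    rw [add_mul, mul_add, ex_comm false (a.2.2.2.1 c) τ a.1, smul_sub, smul_mul_assoc,
      mul_smul_comm]
    abel
  have e4 : P * ex false (a.2.2.2.1 c) a.1 - ex false (a.2.2.2.1 c) a.1 * P =
      (a.1 * wtt c a) • (P * Yv (a.2.2.2.1 c) - Yv (a.2.2.2.1 c) * P) := by
    rw [e2]
    simp only [add_mul, mul_add, smul_mul_assoc, mul_smul_comm, one_mul, mul_one, smul_sub]
    abel
  rw [e3, e4, bracket_scalar, smul_smul]
  congr 1
  ring

/-- One of the three vectors in the linear relation. -/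
noncomputable def Av (c i : Fin 3) (a : P5 n) : Mat :=
  wtt c a • (vm (vl B hb a) (W1 B hb c) * Yv (br (uv i) (a.2.2.2.1 c)) *
    vm (vl B hb a) (W2 B hb c))

theorem Av_tendsto (hy : ∀ c, 0 < kap false * nrm (y c)) (c i j : Fin 3) :
    Tendsto (fun a => coord (Av B hb c i a) j) (𝓝 (pt5 n ρ s y)) (𝓝 (br (uv i) (y c) j)) := by
  have h1 := vm_tendsto (ρ := ρ) (s := s) B hb hy (W1 B hb c)
  have h2 := vm_tendsto (ρ := ρ) (s := s) B hb hy (W2 B hb c)
  have h3 : ContinuousAt (fun a : P5 n => Yv (br (uv i) (a.2.2.2.1 c))) (pt5 n ρ s y) := by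
    have h4 : ContDiffAt ℝ 1 (fun a : P5 n => br (uv i) (a.2.2.2.1 c)) (pt5 n ρ s y) := by
      have hi : ∀ j, ContDiffAt ℝ 1 (fun a : P5 n => a.2.2.2.1 c j) (pt5 n ρ s y) :=
        fun j => contDiffAt_pi.1 (c_y c) j
      have hc : ∀ r : ℝ, ContDiffAt ℝ 1 (fun _ : P5 n => r) (pt5 n ρ s y) :=
        fun r => contDiffAt_const
      unfold br
      exact cont_vec3 ((hc 2).mul (((hc _).mul (hi 2)).sub ((hc _).mul (hi 1))))
        ((hc 2).mul (((hc _).mul (hi 0)).sub ((hc _).mul (hi 2))))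
        ((hc (-2)).mul (((hc _).mul (hi 1)).sub ((hc _).mul (hi 0))))
    exact (Yv_cont h4).continuousAt
  have h5 := (wtt_tendsto (n := n) (ρ := ρ) (s := s) hy c).smul ((h1.mul h3.tendsto).mul h2)
  rw [one_mul, mul_one, one_smul] at h5
  have h6 := (coordL.continuous.tendsto _).comp h5
  have h7 := (continuous_apply j).tendsto _ |>.comp h6
  rw [coordL_apply, coord_Yv] at h7
  exact h7

/-- The matrix of the linear relation. -/
noncomputable def Mm (a : P5 n) : Matrix (Fin 3) (Fin 3) ℝ :=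
  Matrix.of fun i j => (![coord (Av B hb 1 1 a) j, coord (Av B hb 2 0 a) j,
    coord (Av B hb 2 1 a) j] : Fin 3 → ℝ) i

theorem det_ev (h : BP l κ α β ρ s w y) :
    ∀ᶠ a in 𝓝 (pt5 n ρ s y), (Mm B hb a).det ≠ 0 := by
  have h1 : Tendsto (fun a => Mm B hb a) (𝓝 (pt5 n ρ s y)) (𝓝 (Matrix.of fun i j =>
      (![br (uv 1) (y 1) j, br (uv 0) (y 2) j, br (uv 1) (y 2) j] : Fin 3 → ℝ) i)) := by
    refine tendsto_pi_nhds.2 fun i => tendsto_pi_nhds.2 fun j => ?_
    fin_cases i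
    · exact Av_tendsto B hb h.pos 1 1 j
    · exact Av_tendsto B hb h.pos 2 0 j
    · exact Av_tendsto B hb h.pos 2 1 j
  have h2 : Continuous (fun M : Matrix (Fin 3) (Fin 3) ℝ => M.det) :=
    Continuous.matrix_det continuous_id
  have h3 := (h2.tendsto _).comp h1
  refine h3.eventually_ne ?_
  have h4 : (Matrix.of fun i j => (![br (uv 1) (y 1) j, br (uv 0) (y 2) j,
      br (uv 1) (y 2) j] : Fin 3 → ℝ) i : Matrix (Fin 3) (Fin 3) ℝ).det =
      -8 * y 2 2 * (y 1 2 * y 2 0 - y 1 0 * y 2 2) := by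
    rw [Matrix.det_fin_three]
    simp [br, uv]
    ring
  show (Matrix.of fun i j => (![br (uv 1) (y 1) j, br (uv 0) (y 2) j,
      br (uv 1) (y 2) j] : Fin 3 → ℝ) i : Matrix (Fin 3) (Fin 3) ℝ).det ≠ 0
  rw [h4]
  exact mul_ne_zero (mul_ne_zero (by norm_num) h.y22) h.ind

theorem br_zero (z : Fin 3 → ℝ) : br 0 z = 0 := by
  funext i; fin_cases i <;> simp [br]

theorem P_zero {a : P5 n} {P : Fin 3 → Mat} (hB : Bas B hb a P) (ha : a.1 ≠ 0)
    (hdet : (Mm B hb a).det ≠ 0) : ∀ c, coord (P c) = 0 := by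
  have hsum := closing_sum B hb (vl B hb a) hB.opn
  have hterm : ∀ c, vm (vl B hb a) (W1 B hb c) *
      (vm (vl B hb a) (B.longitude (base c)) * vm (vl B hb a) (FreeGroup.of (base c)) -
        vm (vl B hb a) (FreeGroup.of (base c)) * vm (vl B hb a) (B.longitude (base c))) *
      vm (vl B hb a) (W2 B hb c) =
      a.1 ^ 2 • (wtt c a • (vm (vl B hb a) (W1 B hb c) *
        Yv (br (coord (P c)) (a.2.2.2.1 c)) * vm (vl B hb a) (W2 B hb c))) := by
    intro c
    rw [hB.long c, hB.gen c, comm_P (hB.pos c), smul_smul]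
    simp only [mul_smul_comm, smul_mul_assoc]
  simp only [hterm] at hsum
  rw [← Finset.smul_sum] at hsum
  have h0 := (smul_eq_zero.1 hsum).resolve_left (pow_ne_zero 2 ha)
  obtain ⟨t, ht⟩ : ∃ t : Fin 3 → ℝ, t = ![coord (P 1) 1, coord (P 2) 0, coord (P 2) 1] := ⟨_, rfl⟩
  have c0 : coord (P 0) = 0 := funext hB.p0
  have c1 : coord (P 1) = t 0 • uv 1 := by
    funext i
    fin_cases i
    · simpa [uv] using hB.p10
    · simp [uv, ht]
    · simpa [uv] using hB.p12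
  have c2 : coord (P 2) = t 1 • uv 0 + t 2 • uv 1 := by
    funext i
    fin_cases i
    · simp [uv, ht]
    · simp [uv, ht]
    · simpa [uv] using hB.p22
  have b1 : ∀ (r : ℝ) (u z : Fin 3 → ℝ), br (r • u) z = r • br u z := by
    intro r u z
    funext i; fin_cases i <;> simp [br] <;> ring
  have b2 : ∀ (u v z : Fin 3 → ℝ), br (u + v) z = br u z + br v z := by
    intro u v z
    funext i; fin_cases i <;> simp [br] <;> ring
  have Y1 : ∀ (r : ℝ) (u : Fin 3 → ℝ), Yv (r • u) = r • Yv u := by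
    intro r u; apply mat_ext <;> simp [mul_sub, mul_add]
  have Y2 : ∀ (u v : Fin 3 → ℝ), Yv (u + v) = Yv u + Yv v := by
    intro u v; apply mat_ext <;> simp <;> ring
  have Y0 : Yv 0 = 0 := by apply mat_ext <;> simp
  rw [Fin.sum_univ_three, c0, c1, c2, br_zero, Y0, b2, b1, b1, b1, Y2, Y1, Y1, Y1] at h0
  simp only [mul_zero, zero_mul, smul_zero, zero_add, mul_add, add_mul, mul_smul_comm,
    smul_mul_assoc, smul_add] at h0
  have h1 : t 0 • Av B hb 1 1 a + (t 1 • Av B hb 2 0 a + t 2 • Av B hb 2 1 a) = 0 := by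
    rw [← h0, Av, Av, Av, smul_comm (t 0), smul_comm (t 1), smul_comm (t 2)]
  have h2 : Matrix.vecMul t (Mm B hb a) = 0 := by
    funext j
    have h3 := congrArg (fun M => coordL M j) h1
    simp only [map_add, map_smul, map_zero, Pi.add_apply, Pi.smul_apply, Pi.zero_apply,
      smul_eq_mul, coordL_apply] at h3
    show ∑ i, t i * Mm B hb a i j = 0
    rw [Fin.sum_univ_three]
    show t 0 * coord (Av B hb 1 1 a) j + t 1 * coord (Av B hb 2 0 a) j +
      t 2 * coord (Av B hb 2 1 a) j = 0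
    linarith
  have h3 := Matrix.eq_zero_of_vecMul_eq_zero hdet h2
  rw [h3] at c1 c2
  intro c
  fin_cases c
  · exact c0
  · show coord (P 1) = 0
    rw [c1]; simp
  · show coord (P 2) = 0
    rw [c2]; simp

/-- All equations hold. -/
structure Goo (κ : ℝ) (α β w : Fin 3 → ℝ) (a : P5 n) : Prop where
  pos : ∀ c, 0 < kap false * nrm (a.2.2.2.1 c)
  gen : ∀ c, vm (vl B hb a) (FreeGroup.of (base c)) = ex false (a.2.2.2.1 c) a.1
  rel : ∀ k, vl B hb a (B.u k * FreeGroup.of (B.s k) * (B.u k)⁻¹ * (FreeGroup.of k)⁻¹) = 1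
  long : ∀ c, vm (vl B hb a) (B.longitude (base c)) =
    ex false (a.2.2.2.1 c) (a.1 * a.2.2.1 c)
  det : ∀ v, (vm (vl B hb a) v).det = 1
  cst : ∀ c, Cs κ α β w c a = 0
  y00 : a.2.2.2.1 0 0 = 0
  y01 : a.2.2.2.1 0 1 = 0

theorem goo_ev (h : BP l κ α β ρ s w y) :
    ∀ᶠ a in 𝓝 (pt5 n ρ s y), a.1 ≠ 0 → FF B hb h.pos κ α β w ρ s a = 0 →
      Goo B hb κ α β w a := by
  have htr : ∀ᶠ a in 𝓝 (pt5 n ρ s y), ∀ c, 0 < (vm (vl B hb a) (B.longitude (base c))) 0 0 +
      (ex false (a.2.2.2.1 c) (a.1 * a.2.2.1 c)) 1 1 := by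
    refine eventually_all.2 fun c => ?_
    have h1 := ((entry_cont 0 0).tendsto _).comp
      (vm_tendsto (ρ := ρ) (s := s) B hb h.pos (B.longitude (base c)))
    have hl := (c_len (n := n) (ρ := ρ) (s := s) h.pos c).continuousAt
    have hl0 : len false (y c) ≠ 0 := (len_pos (h.pos c)).ne'
    have h2 : ContinuousAt (fun a : P5 n => (ex false (a.2.2.2.1 c) (a.1 * a.2.2.1 c)) 1 1)
        (pt5 n ρ s y) := by
      have e1 : (fun a : P5 n => (ex false (a.2.2.2.1 c) (a.1 * a.2.2.1 c)) 1 1) =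
          fun a => Real.cos (a.1 * a.2.2.1 c * len false (a.2.2.2.1 c)) -
            Real.sin (a.1 * a.2.2.1 c * len false (a.2.2.2.1 c)) / len false (a.2.2.2.1 c) *
              a.2.2.2.1 c 0 := by
        funext a; simp [cs, sn]
      rw [e1]
      have k1 : ContinuousAt (fun a : P5 n => a.1 * a.2.2.1 c * len false (a.2.2.2.1 c))
          (pt5 n ρ s y) :=
        (c_eps.continuousAt.mul (c_s c).continuousAt).mul hl
      have k2 : ContinuousAt (fun a : P5 n => a.2.2.2.1 c 0) (pt5 n ρ s y) :=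
        (contDiffAt_pi.1 (c_y c) 0).continuousAt
      exact (Real.continuous_cos.continuousAt.comp k1).sub
        (((Real.continuous_sin.continuousAt.comp k1).div hl hl0).mul k2)
    have h4 := h1.add h2.tendsto
    refine h4.eventually_const_lt ?_
    simp [pt5, cs, sn]
  filter_upwards [bas_ev B hb h, det_ev B hb h, htr] with a h1 h2 h3 ha0 hF
  obtain ⟨P, hB⟩ := h1 hF
  have hP := P_zero B hb hB ha0 h2
  have hdetw := det_words B hb (vl B hb a) hB.opn (fun c => by rw [hB.gen c, det_ex (hB.pos c)])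
  have hlong : ∀ c, vm (vl B hb a) (B.longitude (base c)) =
      ex false (a.2.2.2.1 c) (a.1 * a.2.2.1 c) := by
    intro c
    obtain ⟨r, hr⟩ : ∃ r : ℝ, r = a.1 * ((P c 0 0 + P c 1 1) / 2) := ⟨_, rfl⟩
    have e1 : vm (vl B hb a) (B.longitude (base c)) =
        ex false (a.2.2.2.1 c) (a.1 * a.2.2.1 c) + r • (1 : Mat) := by
      rw [hB.long c]
      congr 1
      have e2 := decomp (P c)
      have e3 : Yv (0 : Fin 3 → ℝ) = 0 := by apply mat_ext <;> simp
      rw [hP c, e3, add_zero] at e2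
      rw [hr, ← smul_smul, ← e2]
    have e5 := hdetw (B.longitude (base c))
    have e6 := det_ex (hB.pos c) (a.1 * a.2.2.1 c)
    have e7 := h3 c
    set F := ex false (a.2.2.2.1 c) (a.1 * a.2.2.1 c) with hFdef
    have g00 : (vm (vl B hb a) (B.longitude (base c))) 0 0 = F 0 0 + r := by rw [e1]; simp
    have g01 : (vm (vl B hb a) (B.longitude (base c))) 0 1 = F 0 1 := by rw [e1]; simp
    have g10 : (vm (vl B hb a) (B.longitude (base c))) 1 0 = F 1 0 := by rw [e1]; simp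
    have g11 : (vm (vl B hb a) (B.longitude (base c))) 1 1 = F 1 1 + r := by rw [e1]; simp
    rw [Matrix.det_fin_two, g00, g01, g10, g11] at e5
    rw [Matrix.det_fin_two] at e6
    rw [g00] at e7
    have e8 : r * (F 0 0 + r + F 1 1) = 0 := by linear_combination e5 - e6
    have e9 : r = 0 := by
      rcases mul_eq_zero.1 e8 with h | h
      · exact h
      · linarith
    rw [e1, e9, zero_smul, add_zero]
  have hF3 : ∀ c, Cs κ α β w c a = 0 := fun c => congrFun (congrArg (fun w => w.2.2.1) hF) c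
  have hF4 : (![a.2.2.2.1 0 0, a.2.2.2.1 0 1, a.2.2.2.1 1 1] : Fin 3 → ℝ) = 0 :=
    congrArg (fun w => w.2.2.2.1) hF
  refine ⟨hB.pos, hB.gen, fun k => ?_, hlong, hdetw, hF3, congrFun hF4 0, congrFun hF4 1⟩
  rw [map_mul, map_mul, map_mul, map_inv, map_inv, mul_inv_eq_one]
  by_cases hk : ∀ c, B.s k ≠ base c
  · exact hB.opn k hk
  · push Not at hk
    obtain ⟨c, hc⟩ := hk
    refine B.close_rel hb (vl B hb a) hB.opn hc ?_
    apply Units.ext
    show vm (vl B hb a) (B.longitude (base c)) * vm (vl B hb a) (FreeGroup.of (base c)) =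
      vm (vl B hb a) (FreeGroup.of (base c)) * vm (vl B hb a) (B.longitude (base c))
    rw [hlong c, hB.gen c]
    exact ex_comm _ _ _ _

end Pool.Agent.H42.LK
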