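import Pool.Agent.H42.LK.Sys

set_option autoImplicit false

/-!
# Solutions of the equations
-/

namespace Pool.Agent.H42.LK

open Pool.Agent.H42.LO Pool.Agent.H42.ML Filter Topology
open scoped Matrix.Norms.Operator

/-- The conditions on the base point. -/
structure BP (l : Fin 3 → ℤ) (κ : ℝ) (α β ρ s w : Fin 3 → ℝ) (y : Fin 3 → Fin 3 → ℝ) : Prop where
  l0 : ∀ c, (l c : ℝ) ≠ 0
  w0 : ∀ c, w c ≠ 0
  y00 : y 0 0 = 0
  y01 : y 0 1 = 0
  y11 : y 1 1 = 0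
  y21 : y 2 1 = 0
  y02 : y 0 2 ≠ 0
  y10 : y 1 0 ≠ 0
  y22 : y 2 2 ≠ 0
  ind : y 1 2 * y 2 0 - y 1 0 * y 2 2 ≠ 0
  nm : ∀ c, nrm (y c) = -(w c) ^ 2
  fut : ∀ c, 0 < w c * y c 2
  sl : ∀ c, s c * l c = -(l (c + 1) * l (c + 2))
  zero : ∀ i, y 0 i / l 0 + y 1 i / l 1 + y 2 i / l 2 = 0
  gam : ∀ c, α c + κ * s c ≠ 0
  cst : ∀ c, w c * (α c + κ * s c) + β c * ρ c = 0

variable {n : ℕ} (B : Braid n) {base : Fin 3 → Fin n} (hb : B.IsBase base)
variable {l : Fin 3 → ℤ} {κ : ℝ} {α β ρ s w : Fin 3 → ℝ} {y : Fin 3 → Fin 3 → ℝ}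

theorem BP.pos (h : BP l κ α β ρ s w y) (c : Fin 3) : 0 < kap false * nrm (y c) := by
  rw [h.nm c]
  have := h.w0 c
  simp only [kap, Bool.false_eq_true, if_false]
  have : 0 < w c ^ 2 := by positivity
  linarith

/-- The longitude equations at `ε = 0`. -/
def ez (l : Fin 3 → ℤ) (a : P5 n) (c i : Fin 3) : ℝ :=
  l (c + 2) * a.2.2.2.1 (c + 1) i + l (c + 1) * a.2.2.2.1 (c + 2) i - a.2.2.1 c * a.2.2.2.1 c i

theorem Ps_zero (hL : HasLinking B base l) (hy : ∀ c, 0 < kap false * nrm (y c)) (c : Fin 3)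
    (a : P5 n) (h0 : a.1 = 0) (i : Fin 3) : coord (Ps B hb hy ρ s c a) i = ez l a c i := by
  rw [Ps, h0, fw_longitude B hb hL]
  simp only [zero_smul, add_zero, zero_mul]
  rw [← Int.cast_smul_eq_zsmul ℝ, ← Int.cast_smul_eq_zsmul ℝ]
  simp only [coord_sub, coord_add, coord_smul, Yk, coord_Yv, Pi.sub_apply, Pi.add_apply,
    Pi.smul_apply, smul_eq_mul, ez]

open Classical in
theorem FF_zero (hL : HasLinking B base l) (hy : ∀ c, 0 < kap false * nrm (y c)) :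
    ∀ᶠ a in 𝓝 (pt5 n ρ s y), a.1 = 0 → FF B hb hy κ α β w ρ s a =
      (fun i => ez l a 0 i, ![ez l a 1 0, ez l a 1 2, ez l a 2 2], fun c => Cs κ α β w c a,
        ![a.2.2.2.1 0 0, a.2.2.2.1 0 1, a.2.2.2.1 1 1],
        fun k => if ∃ c, k = base c then a.2.2.2.2 k else a.2.2.2.2 k - a.2.2.2.2 (B.s⁻¹ k)) := by
  have h2 : ∀ᶠ a in 𝓝 (pt5 n ρ s y), ∀ k, (¬ ∃ c, k = base c) → a.1 = 0 →
      Rm B hb hy ρ s (rel B k) a = a.2.2.2.2 k - a.2.2.2.2 (B.s⁻¹ k) := by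
    refine eventually_all.2 fun k => ?_
    by_cases hk : ∃ c, k = base c
    · exact Eventually.of_forall fun a h => absurd hk h
    · filter_upwards [rm_rel_zero (ρ := ρ) (s := s) B hb hy hk] with a ha _ h0
      exact ha h0
  filter_upwards [h2] with a k2 h0
  have k1 := fun c => Ps_zero (ρ := ρ) (s := s) B hb hL hy c a h0
  refine Prod.ext ?_ (Prod.ext ?_ (Prod.ext rfl (Prod.ext rfl ?_)))
  · funext i; exact k1 0 i
  · simp only [FF, k1]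
  · funext k
    simp only [FF]
    by_cases hk : ∃ c, k = base c
    · rw [if_pos hk, if_pos hk]
    · rw [if_neg hk, if_neg hk, k2 k hk h0]

/-- The derivative of the longitude equations. -/
def de (l : Fin 3 → ℤ) (s : Fin 3 → ℝ) (y : Fin 3 → Fin 3 → ℝ) (σ : Fin 3 → ℝ)
    (z : Fin 3 → Fin 3 → ℝ) (c i : Fin 3) : ℝ :=
  l (c + 2) * z (c + 1) i + l (c + 1) * z (c + 2) i - s c * z c i - σ c * y c i

/-- The Lorentz product. -/
def lor (y z : Fin 3 → ℝ) : ℝ := y 0 * z 0 + y 1 * z 1 - y 2 * z 2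

/-- The derivative of the constraints. -/
noncomputable def dC (κ : ℝ) (α s w : Fin 3 → ℝ) (y : Fin 3 → Fin 3 → ℝ) (σ : Fin 3 → ℝ)
    (z : Fin 3 → Fin 3 → ℝ) (c : Fin 3) : ℝ :=
  (-(lor (y c) (z c)) / w c) * (α c + κ * s c) + w c * (κ * σ c)

theorem wf_pt (h : BP l κ α β ρ s w y) (c : Fin 3) : wf w c (pt5 n ρ s y) = w c := by
  have h1 := h.nm c
  have h2 := h.w0 c
  have h3 : len false (y c) = |w c| := by
    rw [len, h1]
    simp only [kap, Bool.false_eq_true, if_false]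
    rw [show (-1 : ℝ) * -(w c) ^ 2 = w c ^ 2 by ring, Real.sqrt_sq_eq_abs]
  show w c / |w c| * len false (y c) = w c
  rw [h3, div_mul_cancel₀ _ (abs_pos.2 h2).ne']

theorem wf_line (h : BP l κ α β ρ s w y) (c : Fin 3) (v : P5 n) :
    HasDerivAt (fun t : ℝ => wf w c (pt5 n ρ s y + t • v))
      (-(lor (y c) (v.2.2.2.1 c)) / w c) 0 := by
  have h1 := h.nm c
  have h2 := h.w0 c
  have hw2 : 0 < w c ^ 2 := by positivity
  set z := v.2.2.2.1 c with hz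
  have e : ∀ t : ℝ, kap false * nrm ((pt5 n ρ s y + t • v).2.2.2.1 c) =
      w c ^ 2 + (-(2 * lor (y c) z)) * t + (-nrm z) * t ^ 2 := by
    intro t
    have e2 : (pt5 n ρ s y + t • v).2.2.2.1 c = y c + t • z := by simp [pt5, hz]
    rw [e2]
    have e3 : nrm (y c + t • z) = nrm (y c) + 2 * lor (y c) z * t + nrm z * t ^ 2 := by
      simp only [nrm, lor, Pi.add_apply, Pi.smul_apply, smul_eq_mul]; ring
    rw [e3, h1]
    simp only [kap, Bool.false_eq_true, if_false]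
    ring
  have h3 := quad_deriv e
  have h4 : kap false * nrm ((pt5 n ρ s y + (0 : ℝ) • v).2.2.2.1 c) = w c ^ 2 := by
    rw [e]; ring
  have h5 := h3.sqrt (by rw [h4]; exact hw2.ne')
  rw [h4, Real.sqrt_sq_eq_abs] at h5
  have h6 := h5.const_mul (w c / |w c|)
  have h7 : |w c| * |w c| = w c * w c := abs_mul_abs_self _
  have h8 : (0 : ℝ) < |w c| := abs_pos.2 h2
  have h9 : w c / |w c| * (-(2 * lor (y c) z) / (2 * |w c|)) = -(lor (y c) z) / w c := by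
    rw [div_mul_div_comm, div_eq_div_iff (by positivity) h2]
    linear_combination (lor (y c) z * 2) * h7
  rw [h9] at h6
  exact h6

theorem Cs_line (h : BP l κ α β ρ s w y) (c : Fin 3) (σ : Fin 3 → ℝ) (z : Fin 3 → Fin 3 → ℝ)
    (b : Fin n → Mat) :
    HasDerivAt (fun t : ℝ => Cs κ α β w c (pt5 n ρ s y + t • ((0, 0, σ, z, b) : P5 n)))
      (dC κ α s w y σ z c) 0 := by
  have h1 := wf_line h c ((0, 0, σ, z, b) : P5 n)
  have e1 : ∀ t : ℝ, (pt5 n ρ s y + t • ((0, 0, σ, z, b) : P5 n)).1 = 0 := by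
    intro t; simp [pt5]
  have e2 : ∀ t : ℝ, (pt5 n ρ s y + t • ((0, 0, σ, z, b) : P5 n)).2.1 c = ρ c := by
    intro t; simp [pt5]
  have e3 : ∀ t : ℝ, (pt5 n ρ s y + t • ((0, 0, σ, z, b) : P5 n)).2.2.1 c = s c + t * σ c := by
    intro t; simp [pt5]
  have h2 : HasDerivAt (fun t : ℝ => α c + κ * s c + (κ * σ c) * t + 0 * t ^ 2) (κ * σ c) 0 :=
    quad_deriv fun t => rfl
  have h3 := (h1.mul h2).add_const (β c * ρ c)
  have e4 : (fun t : ℝ => Cs κ α β w c (pt5 n ρ s y + t • ((0, 0, σ, z, b) : P5 n))) =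
      fun t => wf w c (pt5 n ρ s y + t • ((0, 0, σ, z, b) : P5 n)) *
        (α c + κ * s c + (κ * σ c) * t + 0 * t ^ 2) + β c * ρ c := by
    funext t
    rw [Cs, e1, e2, e3]
    ring
  rw [e4]
  have e5 : wf w c (pt5 n ρ s y + (0 : ℝ) • ((0, 0, σ, z, b) : P5 n)) = w c := by
    rw [zero_smul, add_zero, wf_pt h]
  have e6 : dC κ α s w y σ z c = -lor (y c) (((0, 0, σ, z, b) : P5 n).2.2.2.1 c) / w c *
      (α c + κ * s c + κ * σ c * 0 + 0 * 0 ^ 2) +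
      wf w c (pt5 n ρ s y + (0 : ℝ) • ((0, 0, σ, z, b) : P5 n)) * (κ * σ c) := by
    rw [e5, dC]
    ring
  rw [e6]
  exact h3

theorem ez_line (c i : Fin 3) (σ : Fin 3 → ℝ) (z : Fin 3 → Fin 3 → ℝ) (b : Fin n → Mat) :
    HasDerivAt (fun t : ℝ => ez l (pt5 n ρ s y + t • ((0, 0, σ, z, b) : P5 n)) c i)
      (de l s y σ z c i) 0 := by
  refine quad_deriv (p := l (c + 2) * y (c + 1) i + l (c + 1) * y (c + 2) i - s c * y c i)
    (r := -(σ c * z c i)) fun t => ?_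
  simp only [ez, pt5, de, Prod.smul_mk, Prod.mk_add_mk, Pi.add_apply, Pi.smul_apply, smul_eq_mul]
  ring

open Classical in
theorem FF_line (h : BP l κ α β ρ s w y) (hL : HasLinking B base l) (σ : Fin 3 → ℝ)
    (z : Fin 3 → Fin 3 → ℝ) (b : Fin n → Mat) :
    HasDerivAt (fun t : ℝ => FF B hb h.pos κ α β w ρ s
      (pt5 n ρ s y + t • ((0, 0, σ, z, b) : P5 n)))
      ((fun i => de l s y σ z 0 i, ![de l s y σ z 1 0, de l s y σ z 1 2, de l s y σ z 2 2],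
        fun c => dC κ α s w y σ z c, ![z 0 0, z 0 1, z 1 1],
        fun k => if ∃ c, k = base c then b k else b k - b (B.s⁻¹ k)) : T5 n) 0 := by
  have hc : Tendsto (fun t : ℝ => pt5 n ρ s y + t • ((0, 0, σ, z, b) : P5 n)) (𝓝 0)
      (𝓝 (pt5 n ρ s y)) := by
    have : Continuous (fun t : ℝ => pt5 n ρ s y + t • ((0, 0, σ, z, b) : P5 n)) := by fun_prop
    have h := this.tendsto 0
    simpa using h
  have hev := hc.eventually (FF_zero (κ := κ) (α := α) (β := β) (w := w) (ρ := ρ) (s := s)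
    B hb hL h.pos)
  have hfst : ∀ t : ℝ, (pt5 n ρ s y + t • ((0, 0, σ, z, b) : P5 n)).1 = 0 := by
    intro t; simp [pt5]
  have e3 : ∀ t : ℝ, (pt5 n ρ s y + t • ((0, 0, σ, z, b) : P5 n)).2.2.2.2 = t • b := by
    intro t; simp [pt5]
  have e4 : ∀ (t : ℝ) (c i : Fin 3), (pt5 n ρ s y + t • ((0, 0, σ, z, b) : P5 n)).2.2.2.1 c i =
      y c i + t * z c i := by
    intro t c i; simp [pt5]
  have hlin : ∀ p q : ℝ, HasDerivAt (fun t : ℝ => p + t * q) q 0 := by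
    intro p q
    exact quad_deriv (p := p) (r := 0) fun t => by ring
  have main : HasDerivAt (fun t : ℝ =>
      ((fun i => ez l (pt5 n ρ s y + t • ((0, 0, σ, z, b) : P5 n)) 0 i,
        ![ez l (pt5 n ρ s y + t • ((0, 0, σ, z, b) : P5 n)) 1 0,
          ez l (pt5 n ρ s y + t • ((0, 0, σ, z, b) : P5 n)) 1 2,
          ez l (pt5 n ρ s y + t • ((0, 0, σ, z, b) : P5 n)) 2 2],
        fun c => Cs κ α β w c (pt5 n ρ s y + t • ((0, 0, σ, z, b) : P5 n)),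
        ![y 0 0 + t * z 0 0, y 0 1 + t * z 0 1, y 1 1 + t * z 1 1],
        fun k => if ∃ c, k = base c then (t • b) k else (t • b) k - (t • b) (B.s⁻¹ k)) : T5 n))
      ((fun i => de l s y σ z 0 i, ![de l s y σ z 1 0, de l s y σ z 1 2, de l s y σ z 2 2],
        fun c => dC κ α s w y σ z c, ![z 0 0, z 0 1, z 1 1],
        fun k => if ∃ c, k = base c then b k else b k - b (B.s⁻¹ k)) : T5 n) 0 := by
    refine HasDerivAt.prodMk ?_ (HasDerivAt.prodMk ?_ (HasDerivAt.prodMk ?_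
      (HasDerivAt.prodMk ?_ ?_)))
    · exact hasDerivAt_pi.2 fun i => ez_line 0 i σ z b
    · refine hasDerivAt_pi.2 fun i => ?_
      fin_cases i
      · exact ez_line 1 0 σ z b
      · exact ez_line 1 2 σ z b
      · exact ez_line 2 2 σ z b
    · exact hasDerivAt_pi.2 fun c => Cs_line h c σ z b
    · refine hasDerivAt_pi.2 fun i => ?_
      fin_cases i
      · exact hlin _ _
      · exact hlin _ _
      · exact hlin _ _
    · refine hasDerivAt_pi.2 fun k => ?_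
      have hs : ∀ j, HasDerivAt (fun t : ℝ => (t • b) j) (b j) 0 := by
        intro j
        have := (hasDerivAt_id (0 : ℝ)).smul_const (b j)
        rw [one_smul] at this
        exact this
      by_cases hk : ∃ c, k = base c
      · simp only [if_pos hk]; exact hs k
      · simp only [if_neg hk]; exact (hs k).sub (hs _)
  refine main.congr_of_eventuallyEq ?_
  filter_upwards [hev] with t ht
  rw [ht (hfst t), e3]
  simp only [e4]

theorem lin2 {a b c d e f : ℝ} (h : a * d - b * c ≠ 0) :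
    ∃ x z : ℝ, a * x + b * z = e ∧ c * x + d * z = f := by
  refine ⟨(e * d - b * f) / (a * d - b * c), (a * f - c * e) / (a * d - b * c), ?_, ?_⟩
  · rw [mul_div_assoc', mul_div_assoc', ← add_div, div_eq_iff h]; ring
  · rw [mul_div_assoc', mul_div_assoc', ← add_div, div_eq_iff h]; ring

theorem BP.de_eq (h : BP l κ α β ρ s w y) (σ : Fin 3 → ℝ) (z : Fin 3 → Fin 3 → ℝ) (c i : Fin 3) :
    de l s y σ z c i = l (c + 1) * l (c + 2) * (z 0 i / l 0 + z 1 i / l 1 + z 2 i / l 2) -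
      σ c * y c i := by
  have h1 := h.sl c
  have h2 := h.l0 c
  have h3 := h.l0 (c + 1)
  have h4 := h.l0 (c + 2)
  have e1 : s c = -(l (c + 1) * l (c + 2)) / l c := by rw [eq_div_iff h2, h1]
  have key : ∀ G : Fin 3 → ℝ, G 0 + G 1 + G 2 = G c + G (c + 1) + G (c + 2) := by
    intro G
    fin_cases c
    · rfl
    · show G 0 + G 1 + G 2 = G 1 + G 2 + G 0
      ring
    · show G 0 + G 1 + G 2 = G 2 + G 0 + G 1
      ring
  have e2 := key (fun d => z d i / l d)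
  rw [e2, de, e1]
  field_simp
  ring

/-- The linear system can be solved. -/
theorem solve_lin (h : BP l κ α β ρ s w y) (g₁ g₂ g₃ g₄ : Fin 3 → ℝ) :
    ∃ (σ : Fin 3 → ℝ) (z : Fin 3 → Fin 3 → ℝ), (∀ i, de l s y σ z 0 i = g₁ i) ∧
      de l s y σ z 1 0 = g₂ 0 ∧ de l s y σ z 1 2 = g₂ 1 ∧ de l s y σ z 2 2 = g₂ 2 ∧
      (∀ c, dC κ α s w y σ z c = g₃ c) ∧ z 0 0 = g₄ 0 ∧ z 0 1 = g₄ 1 ∧ z 1 1 = g₄ 2 := by
  have l0 := h.l0 0
  have l1 := h.l0 1
  have l2 := h.l0 2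
  have y02 := h.y02
  have y10 := h.y10
  have y22 := h.y22
  obtain ⟨ζ₀, hζ₀⟩ : ∃ x : ℝ, x = g₁ 0 / (l 1 * l 2) := ⟨_, rfl⟩
  obtain ⟨ζ₁, hζ₁⟩ : ∃ x : ℝ, x = g₁ 1 / (l 1 * l 2) := ⟨_, rfl⟩
  obtain ⟨σ₁, hσ₁⟩ : ∃ x : ℝ, x = (l 2 * l 0 * ζ₀ - g₂ 0) / y 1 0 := ⟨_, rfl⟩
  obtain ⟨ζ₂, hζ₂⟩ : ∃ x : ℝ, x = (g₂ 1 + σ₁ * y 1 2) / (l 2 * l 0) := ⟨_, rfl⟩
  obtain ⟨σ₀, hσ₀⟩ : ∃ x : ℝ, x = (l 1 * l 2 * ζ₂ - g₁ 2) / y 0 2 := ⟨_, rfl⟩
  obtain ⟨σ₂, hσ₂⟩ : ∃ x : ℝ, x = (l 0 * l 1 * ζ₂ - g₂ 2) / y 2 2 := ⟨_, rfl⟩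
  obtain ⟨σ, hσ⟩ : ∃ σ : Fin 3 → ℝ, σ = ![σ₀, σ₁, σ₂] := ⟨_, rfl⟩
  obtain ⟨r, hr⟩ : ∃ r : Fin 3 → ℝ, r = fun c => w c * (w c * (κ * σ c) - g₃ c) /
    (α c + κ * s c) := ⟨_, rfl⟩
  obtain ⟨z02, hz02⟩ : ∃ x : ℝ, x = -(r 0) / y 0 2 := ⟨_, rfl⟩
  obtain ⟨z21, hz21⟩ : ∃ x : ℝ, x = l 2 * (ζ₁ - g₄ 1 / l 0 - g₄ 2 / l 1) := ⟨_, rfl⟩
  obtain ⟨AA, hAA⟩ : ∃ x : ℝ, x = l 1 * (ζ₀ - g₄ 0 / l 0) := ⟨_, rfl⟩
  obtain ⟨DD, hDD⟩ : ∃ x : ℝ, x = l 1 * (ζ₂ - z02 / l 0) := ⟨_, rfl⟩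
  have hz0 : y 2 0 = -(l 2 / l 1) * y 1 0 := by
    have := h.zero 0
    rw [h.y00, zero_div, zero_add] at this
    field_simp at this ⊢
    linarith
  obtain ⟨z20, z22, hz20, hz22⟩ := lin2 (a := -(l 1 / l 2) * y 1 0) (b := (l 1 / l 2) * y 1 2)
    (c := y 2 0) (d := - y 2 2) (e := r 1 - y 1 0 * AA + y 1 2 * DD) (f := r 2) (by
      have h1 := h.ind
      have : -((l 1 : ℝ) / l 2) * y 1 0 * -y 2 2 - l 1 / l 2 * y 1 2 * y 2 0 =
        -((l 1 : ℝ) / l 2) * (y 1 2 * y 2 0 - y 1 0 * y 2 2) := by ring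
      rw [this]
      exact mul_ne_zero (neg_ne_zero.2 (div_ne_zero l1 l2)) h1)
  obtain ⟨z, hz⟩ : ∃ z : Fin 3 → Fin 3 → ℝ, z = ![![g₄ 0, g₄ 1, z02],
    ![AA - (l 1 / l 2) * z20, g₄ 2, DD - (l 1 / l 2) * z22], ![z20, z21, z22]] := ⟨_, rfl⟩
  have zz0 : z 0 0 / l 0 + z 1 0 / l 1 + z 2 0 / l 2 = ζ₀ := by
    rw [hz]
    simp only [Matrix.cons_val_zero, Matrix.cons_val_one, Matrix.cons_val]
    rw [hAA]; field_simp; ring
  have zz1 : z 0 1 / l 0 + z 1 1 / l 1 + z 2 1 / l 2 = ζ₁ := by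
    rw [hz]
    simp only [Matrix.cons_val_zero, Matrix.cons_val_one, Matrix.cons_val]
    rw [hz21]; field_simp; ring
  have zz2 : z 0 2 / l 0 + z 1 2 / l 1 + z 2 2 / l 2 = ζ₂ := by
    rw [hz]
    simp only [Matrix.cons_val_zero, Matrix.cons_val_one, Matrix.cons_val]
    rw [hDD]; field_simp; ring
  have s0 : σ 0 = σ₀ := by rw [hσ]; rfl
  have s1 : σ 1 = σ₁ := by rw [hσ]; rfl
  have s2 : σ 2 = σ₂ := by rw [hσ]; rfl
  have e012 : (0 : Fin 3) + 1 = 1 := rfl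
  have e022 : (0 : Fin 3) + 2 = 2 := rfl
  have e112 : (1 : Fin 3) + 1 = 2 := rfl
  have e122 : (1 : Fin 3) + 2 = 0 := rfl
  have e212 : (2 : Fin 3) + 1 = 0 := rfl
  have e222 : (2 : Fin 3) + 2 = 1 := rfl
  have hlor : ∀ c, lor (y c) (z c) = r c := by
    intro c
    fin_cases c
    · show lor (y 0) (z 0) = r 0
      rw [lor, h.y00, h.y01, hz]
      simp only [Matrix.cons_val_zero, Matrix.cons_val_one, Matrix.cons_val]
      rw [hz02]; field_simp; ring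
    · show lor (y 1) (z 1) = r 1
      rw [lor, h.y11, hz]
      simp only [Matrix.cons_val_zero, Matrix.cons_val_one, Matrix.cons_val]
      linear_combination hz20
    · show lor (y 2) (z 2) = r 2
      rw [lor, h.y21, hz]
      simp only [Matrix.cons_val_zero, Matrix.cons_val_one, Matrix.cons_val]
      linear_combination hz22
  refine ⟨σ, z, ?_, ?_, ?_, ?_, ?_, ?_, ?_, ?_⟩
  · intro i
    rw [h.de_eq, e012, e022]
    fin_cases i
    · show (l 1 : ℝ) * l 2 * (z 0 0 / l 0 + z 1 0 / l 1 + z 2 0 / l 2) - σ 0 * y 0 0 = g₁ 0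
      rw [zz0, h.y00, hζ₀]; field_simp; ring
    · show (l 1 : ℝ) * l 2 * (z 0 1 / l 0 + z 1 1 / l 1 + z 2 1 / l 2) - σ 0 * y 0 1 = g₁ 1
      rw [zz1, h.y01, hζ₁]; field_simp; ring
    · show (l 1 : ℝ) * l 2 * (z 0 2 / l 0 + z 1 2 / l 1 + z 2 2 / l 2) - σ 0 * y 0 2 = g₁ 2
      rw [zz2, s0, hσ₀]; field_simp; ring
  · rw [h.de_eq, e112, e122, zz0, s1, hσ₁]; field_simp; ring
  · rw [h.de_eq, e112, e122, zz2, s1, hζ₂]; field_simp; ring
  · rw [h.de_eq, e212, e222, zz2, s2, hσ₂]; field_simp; ring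
  · intro c
    rw [dC, hlor, hr]
    have h1 := h.gam c
    have h2 := h.w0 c
    field_simp
    ring
  · rw [hz]; rfl
  · rw [hz]; rfl
  · rw [hz]; rfl

theorem vec3_ext {f : Fin 3 → ℝ} {x y z : ℝ} (h0 : x = f 0) (h1 : y = f 1) (h2 : z = f 2) :
    (![x, y, z] : Fin 3 → ℝ) = f := by
  funext i
  fin_cases i
  · exact h0
  · exact h1
  · exact h2

/-- Solutions exist for all parameters close to the base point. -/
theorem exists_sol (h : BP l κ α β ρ s w y) (hL : HasLinking B base l) {U : Set (P5 n)}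
    (hU : U ∈ 𝓝 (pt5 n ρ s y)) :
    ∀ᶠ x in 𝓝 ((0, ρ) : ℝ × (Fin 3 → ℝ)), ∃ a ∈ U, a.1 = x.1 ∧ a.2.1 = x.2 ∧
      FF B hb h.pos κ α β w ρ s a = 0 := by
  classical
  set Φ : P5 n → (ℝ × (Fin 3 → ℝ)) × T5 n :=
    fun a => ((a.1, a.2.1), FF B hb h.pos κ α β w ρ s a) with hΦ
  have hFs : HasStrictFDerivAt (fun a => FF B hb h.pos κ α β w ρ s a)
      (fderiv ℝ (fun a => FF B hb h.pos κ α β w ρ s a) (pt5 n ρ s y)) (pt5 n ρ s y) :=
    (c_FF B hb h.pos κ α β w).hasStrictFDerivAt one_ne_zero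
  set L := fderiv ℝ (fun a => FF B hb h.pos κ α β w ρ s a) (pt5 n ρ s y) with hLdef
  set L' : P5 n →L[ℝ] (ℝ × (Fin 3 → ℝ)) × T5 n :=
    (((ContinuousLinearMap.fst ℝ ℝ _).prod
      ((ContinuousLinearMap.fst ℝ (Fin 3 → ℝ) _).comp (ContinuousLinearMap.snd ℝ ℝ _))).prod L)
    with hL'
  have hΦs : HasStrictFDerivAt Φ L' (pt5 n ρ s y) := by
    refine HasStrictFDerivAt.prodMk (HasStrictFDerivAt.prodMk ?_ ?_) hFs
    · exact hasStrictFDerivAt_fst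
    · exact hasStrictFDerivAt_fst.comp _ hasStrictFDerivAt_snd
  have hLv : ∀ (σ : Fin 3 → ℝ) (z : Fin 3 → Fin 3 → ℝ) (b : Fin n → Mat),
      L ((0, 0, σ, z, b) : P5 n) =
      ((fun i => de l s y σ z 0 i, ![de l s y σ z 1 0, de l s y σ z 1 2, de l s y σ z 2 2],
        fun c => dC κ α s w y σ z c, ![z 0 0, z 0 1, z 1 1],
        fun k => if ∃ c, k = base c then b k else b k - b (B.s⁻¹ k)) : T5 n) := by
    intro σ z b
    have e1 := FF_line B hb h hL σ z b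
    have e2 : HasDerivAt (fun t : ℝ => FF B hb h.pos κ α β w ρ s
        (pt5 n ρ s y + t • ((0, 0, σ, z, b) : P5 n))) (L ((0, 0, σ, z, b) : P5 n)) 0 := by
      have g1 : HasDerivAt (fun t : ℝ => pt5 n ρ s y + t • ((0, 0, σ, z, b) : P5 n))
          ((0, 0, σ, z, b) : P5 n) 0 := by
        have g2 := ((hasDerivAt_id (0 : ℝ)).smul_const ((0, 0, σ, z, b) : P5 n)).const_add
          (pt5 n ρ s y)
        rw [one_smul] at g2
        exact g2
      have g3 : HasFDerivAt (fun a => FF B hb h.pos κ α β w ρ s a) L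
          (pt5 n ρ s y + (0 : ℝ) • ((0, 0, σ, z, b) : P5 n)) := by
        rw [zero_smul, add_zero]
        exact hFs.hasFDerivAt
      exact g3.comp_hasDerivAt (0 : ℝ) g1
    exact e2.unique e1
  have hsurj : ∀ g : T5 n, ∃ σ z b, L ((0, 0, σ, z, b) : P5 n) = g := by
    rintro ⟨g₁, g₂, g₃, g₄, e⟩
    obtain ⟨b, hb'⟩ := solve_b B hb e
    obtain ⟨σ, z, k1, k2, k3, k4, k5, k6, k7, k8⟩ := solve_lin h g₁ g₂ g₃ g₄
    refine ⟨σ, z, b, ?_⟩
    rw [hLv]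
    refine Prod.ext (funext k1) (Prod.ext (vec3_ext k2 k3 k4) (Prod.ext (funext k5)
      (Prod.ext (vec3_ext k6 k7 k8) hb')))
  have hrange : L'.range = ⊤ := by
    rw [LinearMap.range_eq_top]
    rintro ⟨⟨ε', ρ'⟩, g⟩
    obtain ⟨σ, z, b, hzb⟩ := hsurj (g - L ((ε', ρ', 0, 0, 0) : P5 n))
    refine ⟨((ε', ρ', 0, 0, 0) : P5 n) + ((0, 0, σ, z, b) : P5 n), ?_⟩
    have e1 : L (((ε', ρ', 0, 0, 0) : P5 n) + ((0, 0, σ, z, b) : P5 n)) = g := by
      rw [map_add, hzb, add_sub_cancel]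
    have e2 : (((ε', ρ', 0, 0, 0) : P5 n) + ((0, 0, σ, z, b) : P5 n)).1 = ε' := by simp
    have e3 : (((ε', ρ', 0, 0, 0) : P5 n) + ((0, 0, σ, z, b) : P5 n)).2.1 = ρ' := by simp
    exact Prod.ext (Prod.ext e2 e3) e1
  have hmap := hΦs.map_nhds_eq_of_surj hrange
  have hΦ0 : Φ (pt5 n ρ s y) = ((0, ρ), 0) := by
    have e1 := (FF_zero (κ := κ) (α := α) (β := β) (w := w) (ρ := ρ) (s := s)
      B hb hL h.pos).self_of_nhds rfl
    have hz : ∀ c i, ez l (pt5 n ρ s y) c i = 0 := by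
      intro c i
      have e2 : ez l (pt5 n ρ s y) c i = de l s y 0 y c i := by
        simp only [ez, de, pt5, Pi.zero_apply, zero_mul, sub_zero]
      rw [e2, h.de_eq, h.zero]
      simp
    refine Prod.ext rfl ?_
    show FF B hb h.pos κ α β w ρ s (pt5 n ρ s y) = 0
    rw [e1]
    refine Prod.ext ?_ (Prod.ext ?_ (Prod.ext ?_ (Prod.ext ?_ ?_)))
    · funext i; exact hz 0 i
    · exact vec3_ext (hz 1 0) (hz 1 2) (hz 2 2)
    · funext c
      show Cs κ α β w c (pt5 n ρ s y) = 0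
      rw [Cs, wf_pt h]
      have := h.cst c
      simp only [pt5, zero_mul, zero_add]
      exact this
    · exact vec3_ext h.y00 h.y01 h.y11
    · funext k
      by_cases hk : ∃ c, k = base c
      · simp only [if_pos hk]; rfl
      · simp only [if_neg hk]
        show (0 : Mat) - 0 = 0
        simp
  have himg : Φ '' U ∈ 𝓝 (Φ (pt5 n ρ s y)) := (le_of_eq hmap.symm) (image_mem_map hU)
  have hcont : Tendsto (fun x : ℝ × (Fin 3 → ℝ) => ((x, 0) : (ℝ × (Fin 3 → ℝ)) × T5 n))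
      (𝓝 (0, ρ)) (𝓝 (Φ (pt5 n ρ s y))) := by
    rw [hΦ0]
    have c1 : Continuous (fun x : ℝ × (Fin 3 → ℝ) => ((x, 0) : (ℝ × (Fin 3 → ℝ)) × T5 n)) := by
      fun_prop
    exact c1.tendsto (0, ρ)
  filter_upwards [hcont himg] with x hx
  obtain ⟨a, haU, ha⟩ := hx
  refine ⟨a, haU, ?_, ?_, ?_⟩
  · exact congrArg (fun w => w.1.1) ha
  · exact congrArg (fun w => w.1.2) ha
  · exact congrArg (fun w => w.2) ha

end Pool.Agent.H42.LK
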