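import Pool.Agent.H42.LK.Gen

set_option autoImplicit false

/-!
# The equations near the trivial representation, elliptic meridians
-/

namespace Pool.Agent.H42.LK

open Pool.Agent.H42.LO Pool.Agent.H42.ML Filter Topology
open scoped Matrix.Norms.Operator

/-- The parameter space: `ε`, parameters, rotation ratios of the longitudes, logarithmic
derivatives of the meridians, second order corrections. -/
abbrev P5 (n : ℕ) : Type :=
  ℝ × (Fin 3 → ℝ) × (Fin 3 → ℝ) × (Fin 3 → Fin 3 → ℝ) × (Fin n → Mat)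

variable {n : ℕ} (B : Braid n) {base : Fin 3 → Fin n} (hb : B.IsBase base)

/-- The logarithmic derivative of the meridian of the component `c`. -/
def Yk (c : Fin 3) (a : P5 n) : Mat := Yv (a.2.2.2.1 c)

/-- The first order coefficient of a word. -/
noncomputable def fw (v : FreeGroup (Fin n)) (a : P5 n) : Mat :=
  chi (fun k => Yk (B.comp hb k) a) v

/-- The second order expansion of the generators without the correction. -/
noncomputable def g0 (k : Fin n) (a : P5 n) : N2 Mat :=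
  ⟨Yk (B.comp hb k) a, RE false (a.2.2.2.1 (B.comp hb k)) a.1 +
    (Yk (B.comp hb k) a * fw B hb (B.V hb k) a - fw B hb (B.V hb k) a * Yk (B.comp hb k) a)⟩

/-- The second order expansion of the generators. -/
noncomputable def gN (k : Fin n) (a : P5 n) : N2 Mat :=
  ⟨(g0 B hb k a).a, (g0 B hb k a).b + a.2.2.2.2 k⟩

/-- The homomorphism given by `g0`. -/
noncomputable def Φ0 (a : P5 n) : FreeGroup (Fin n) →* N2 Mat :=
  FreeGroup.lift fun k => g0 B hb k a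

theorem Φ0_a (v : FreeGroup (Fin n)) (a : P5 n) : (Φ0 B hb a v).a = fw B hb v a :=
  lift_a _ _

theorem ΦN_eq (v : FreeGroup (Fin n)) (a : P5 n) :
    FreeGroup.lift (fun k => gN B hb k a) v =
      ⟨fw B hb v a, (Φ0 B hb a v).b + chi a.2.2.2.2 v⟩ := by
  have h := lift_shift (fun k => g0 B hb k a) a.2.2.2.2 v
  rw [← Φ0_a]
  exact h

theorem g0_rel (a : P5 n) (k : Fin n) (h : ∀ c, B.s k ≠ base c) :
    Φ0 B hb a (B.u k) * Φ0 B hb a (FreeGroup.of (B.s k)) * (Φ0 B hb a (B.u k))⁻¹ =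
      Φ0 B hb a (FreeGroup.of k) := by
  have h1 : ∀ j, Φ0 B hb a (FreeGroup.of j) = g0 B hb j a := fun j => by simp [Φ0]
  rw [h1, h1, N2.conj_eq, Φ0_a]
  have h2 := B.comp_s hb k
  have h3 := B.V_s hb h
  ext : 1
  · simp only [g0]; rw [h2]
  · simp only [g0]
    rw [h2, h3]
    have h4 : fw B hb (B.V hb k * B.u k) a = fw B hb (B.V hb k) a + fw B hb (B.u k) a := by
      simp [fw]
    rw [h4]
    noncomm_ring

theorem fw_longitude {l : Fin 3 → ℤ} (hL : HasLinking B base l) (c : Fin 3) (a : P5 n) :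
    fw B hb (B.longitude (base c)) a = l (c + 2) • Yk (c + 1) a + l (c + 1) • Yk (c + 2) a :=
  chi_longitude B hb hL (fun c => Yk c a) c

/-- The base point of the parameter space. -/
def pt5 (n : ℕ) (ρ s : Fin 3 → ℝ) (y : Fin 3 → Fin 3 → ℝ) : P5 n := (0, ρ, s, y, 0)

section smooth

variable {ρ s : Fin 3 → ℝ} {y : Fin 3 → Fin 3 → ℝ}

theorem c_eps : ContDiffAt ℝ 1 (fun a : P5 n => a.1) (pt5 n ρ s y) := contDiff_fst.contDiffAt

theorem c_rho (c : Fin 3) : ContDiffAt ℝ 1 (fun a : P5 n => a.2.1 c) (pt5 n ρ s y) :=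
  contDiffAt_pi.1 (contDiff_fst.comp contDiff_snd).contDiffAt c

theorem c_s (c : Fin 3) : ContDiffAt ℝ 1 (fun a : P5 n => a.2.2.1 c) (pt5 n ρ s y) :=
  contDiffAt_pi.1 (contDiff_fst.comp (contDiff_snd.comp contDiff_snd)).contDiffAt c

theorem c_y (c : Fin 3) : ContDiffAt ℝ 1 (fun a : P5 n => a.2.2.2.1 c) (pt5 n ρ s y) :=
  contDiffAt_pi.1 (contDiff_fst.comp (contDiff_snd.comp (contDiff_snd.comp contDiff_snd))).contDiffAt
    c

theorem c_b (k : Fin n) : ContDiffAt ℝ 1 (fun a : P5 n => a.2.2.2.2 k) (pt5 n ρ s y) :=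
  contDiffAt_pi.1 (contDiff_snd.comp (contDiff_snd.comp (contDiff_snd.comp contDiff_snd))).contDiffAt
    k

theorem c_Y (c : Fin 3) : ContDiffAt ℝ 1 (fun a : P5 n => Yk c a) (pt5 n ρ s y) :=
  Yv_cont (c_y c)

theorem c_fw (v : FreeGroup (Fin n)) : ContDiffAt ℝ 1 (fun a => fw B hb v a) (pt5 n ρ s y) :=
  chi_cont (fun _ => c_Y _) v

theorem c_g0 (hy : ∀ c, 0 < kap false * nrm (y c)) (k : Fin n) :
    ContDiffAt ℝ 1 (fun a => (g0 B hb k a).b) (pt5 n ρ s y) := by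
  have h1 := RE_cont (h := false) (c_y (n := n) (ρ := ρ) (s := s) (y := y) (B.comp hb k))
    c_eps rfl (hy _)
  exact h1.add (((c_Y _).mul (c_fw B hb _)).sub ((c_fw B hb _).mul (c_Y _)))

theorem c_gN (hy : ∀ c, 0 < kap false * nrm (y c)) (k : Fin n) :
    ContDiffAt ℝ 1 (fun a => (gN B hb k a).b) (pt5 n ρ s y) :=
  (c_g0 B hb hy k).add (c_b k)

/-- The matrix of the generator `k`. -/
noncomputable def XX (k : Fin n) (a : P5 n) : Mat :=
  1 + a.1 • Yk (B.comp hb k) a + a.1 ^ 2 • (gN B hb k a).b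

open Classical in
/-- The matrix of the generator `k` as a unit. -/
noncomputable def XU (k : Fin n) (a : P5 n) : Matˣ :=
  if h : IsUnit (XX B hb k a) then h.unit else 1

theorem c_XX (hy : ∀ c, 0 < kap false * nrm (y c)) (k : Fin n) :
    ContDiffAt ℝ 1 (fun a => XX B hb k a) (pt5 n ρ s y) :=
  (contDiffAt_const.add (c_eps.smul (c_Y _))).add
    ((c_eps.pow 2).smul (c_gN B hb hy k))

theorem XX_pt (k : Fin n) : XX B hb k (pt5 n ρ s y) = 1 := by
  simp [XX, pt5]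

theorem XU_eq (hy : ∀ c, 0 < kap false * nrm (y c)) (k : Fin n) :
    ∀ᶠ a in 𝓝 (pt5 n ρ s y), (XU B hb k a : Mat) = XX B hb k a := by
  have h1 : {M : Mat | IsUnit M} ∈ 𝓝 (XX B hb k (pt5 n ρ s y)) := by
    rw [XX_pt]
    exact Units.isOpen.mem_nhds isUnit_one
  filter_upwards [(c_XX B hb hy k).continuousAt h1] with a ha
  have ha' : IsUnit (XX B hb k a) := ha
  rw [XU, dif_pos ha']
  rfl

theorem exp_g (hy : ∀ c, 0 < kap false * nrm (y c)) (k : Fin n) :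
    Exp (fun a : P5 n => a.1) (pt5 n ρ s y) (XU B hb k) (gN B hb k) := by
  refine ⟨c_Y _, fun a => (gN B hb k a).b, c_gN B hb hy k, ?_, ?_⟩
  · filter_upwards [XU_eq B hb hy k] with a ha
    rw [ha]; rfl
  · exact Eventually.of_forall fun a _ => rfl

/-- The value of a word. -/
noncomputable def vl (a : P5 n) : FreeGroup (Fin n) →* Matˣ :=
  FreeGroup.lift fun k => XU B hb k a

theorem exp_w (hy : ∀ c, 0 < kap false * nrm (y c)) (v : FreeGroup (Fin n)) :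
    Exp (fun a : P5 n => a.1) (pt5 n ρ s y) (fun a => vl B hb a v)
      (fun a => FreeGroup.lift (fun k => gN B hb k a) v) :=
  Exp.lift c_eps rfl (exp_g B hb hy) v

/-- The second order remainder of a word. -/
noncomputable def Rm (hy : ∀ c, 0 < kap false * nrm (y c)) (ρ s : Fin 3 → ℝ)
    (v : FreeGroup (Fin n)) : P5 n → Mat := (exp_w (ρ := ρ) (s := s) B hb hy v).2.choose

theorem c_Rm (hy : ∀ c, 0 < kap false * nrm (y c)) (v : FreeGroup (Fin n)) :
    ContDiffAt ℝ 1 (Rm B hb hy ρ s v) (pt5 n ρ s y) :=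
  (exp_w (ρ := ρ) (s := s) B hb hy v).2.choose_spec.1

theorem Rm_eq (hy : ∀ c, 0 < kap false * nrm (y c)) (v : FreeGroup (Fin n)) :
    ∀ᶠ a in 𝓝 (pt5 n ρ s y), (vl B hb a v : Mat) =
      1 + a.1 • fw B hb v a + a.1 ^ 2 • Rm B hb hy ρ s v a := by
  have h := (exp_w (ρ := ρ) (s := s) B hb hy v).2.choose_spec.2.1
  filter_upwards [h] with a ha
  rw [ha, ΦN_eq]
  rfl

theorem Rm_zero (hy : ∀ c, 0 < kap false * nrm (y c)) (v : FreeGroup (Fin n)) :
    ∀ᶠ a in 𝓝 (pt5 n ρ s y), a.1 = 0 → Rm B hb hy ρ s v a =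
      (Φ0 B hb a v).b + chi a.2.2.2.2 v := by
  have h := (exp_w (ρ := ρ) (s := s) B hb hy v).2.choose_spec.2.2
  filter_upwards [h] with a ha h0
  have h1 := ha h0
  rw [ΦN_eq] at h1
  exact h1

theorem rm_rel_zero (hy : ∀ c, 0 < kap false * nrm (y c)) {k : Fin n} (hk : ¬ ∃ c, k = base c) :
    ∀ᶠ a in 𝓝 (pt5 n ρ s y), a.1 = 0 → Rm B hb hy ρ s (rel B k) a =
      a.2.2.2.2 k - a.2.2.2.2 (B.s⁻¹ k) := by
  filter_upwards [Rm_zero (ρ := ρ) (s := s) B hb hy (rel B k)] with a ha h0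
  rw [ha h0]
  have hs : B.s (B.s⁻¹ k) = k := by simp
  have h1 := g0_rel B hb a (B.s⁻¹ k) (fun c hc => hk ⟨c, by rw [← hs, hc]⟩)
  rw [hs] at h1
  have h2 : Φ0 B hb a (rel B k) = 1 := by
    rw [rel, map_mul, map_mul, map_mul, map_inv, map_inv, h1, mul_inv_cancel]
  rw [h2]
  simp [rel, sub_eq_add_neg]

/-- The error of the longitude equation. -/
noncomputable def Ps (hy : ∀ c, 0 < kap false * nrm (y c)) (ρ s : Fin 3 → ℝ) (c : Fin 3)
    (a : P5 n) : Mat :=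
  (fw B hb (B.longitude (base c)) a + a.1 • Rm B hb hy ρ s (B.longitude (base c)) a) -
    (a.2.2.1 c • Yk c a + (a.1 * a.2.2.1 c ^ 2) • RE false (a.2.2.2.1 c) (a.1 * a.2.2.1 c))

theorem c_Ps (hy : ∀ c, 0 < kap false * nrm (y c)) (c : Fin 3) :
    ContDiffAt ℝ 1 (fun a => Ps B hb hy ρ s c a) (pt5 n ρ s y) := by
  have h1 : ContDiffAt ℝ 1 (fun a : P5 n => a.1 * a.2.2.1 c) (pt5 n ρ s y) :=
    c_eps.mul (c_s c)
  have h2 := RE_cont (h := false) (c_y (n := n) (ρ := ρ) (s := s) (y := y) c) h1 (by simp [pt5])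
    (hy _)
  exact ((c_fw B hb _).add (c_eps.smul (c_Rm B hb hy _))).sub
    (((c_s c).smul (c_Y c)).add ((c_eps.mul ((c_s c).pow 2)).smul h2))

/-- The rotation angle of the meridian divided by `ε`. -/
noncomputable def wf (w : Fin 3 → ℝ) (c : Fin 3) (a : P5 n) : ℝ :=
  w c / |w c| * len false (a.2.2.2.1 c)

theorem c_wf (hy : ∀ c, 0 < kap false * nrm (y c)) (w : Fin 3 → ℝ) (c : Fin 3) :
    ContDiffAt ℝ 1 (fun a : P5 n => wf w c a) (pt5 n ρ s y) := by
  have hi : ∀ i, ContDiffAt ℝ 1 (fun a : P5 n => a.2.2.2.1 c i) (pt5 n ρ s y) :=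
    fun i => contDiffAt_pi.1 (c_y c) i
  have hn : ContDiffAt ℝ 1 (fun a : P5 n => kap false * nrm (a.2.2.2.1 c)) (pt5 n ρ s y) :=
    contDiffAt_const.mul ((((hi 0).pow 2).add ((hi 1).pow 2)).sub ((hi 2).pow 2))
  exact contDiffAt_const.mul (hn.sqrt (hy c).ne')

/-- The additional constraint. -/
noncomputable def Cs (κ : ℝ) (α β w : Fin 3 → ℝ) (c : Fin 3) (a : P5 n) : ℝ :=
  wf w c a * (α c + κ * (a.1 * a.2.1 c + a.2.2.1 c)) + β c * a.2.1 c

theorem c_Cs (hy : ∀ c, 0 < kap false * nrm (y c)) (κ : ℝ) (α β w : Fin 3 → ℝ) (c : Fin 3) :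
    ContDiffAt ℝ 1 (fun a : P5 n => Cs κ α β w c a) (pt5 n ρ s y) :=
  ((c_wf hy w c).mul (contDiffAt_const.add (contDiffAt_const.mul
    ((c_eps.mul (c_rho c)).add (c_s c))))).add (contDiffAt_const.mul (c_rho c))

/-- The target of the map of the implicit function argument. -/
abbrev T5 (n : ℕ) : Type :=
  (Fin 3 → ℝ) × (Fin 3 → ℝ) × (Fin 3 → ℝ) × (Fin 3 → ℝ) × (Fin n → Mat)

open Classical in
/-- The map of the implicit function argument. -/
noncomputable def FF (hy : ∀ c, 0 < kap false * nrm (y c)) (κ : ℝ) (α β w ρ s : Fin 3 → ℝ)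
    (a : P5 n) : T5 n :=
  (fun i => coord (Ps B hb hy ρ s 0 a) i,
    ![coord (Ps B hb hy ρ s 1 a) 0, coord (Ps B hb hy ρ s 1 a) 2, coord (Ps B hb hy ρ s 2 a) 2],
    fun c => Cs κ α β w c a,
    ![a.2.2.2.1 0 0, a.2.2.2.1 0 1, a.2.2.2.1 1 1],
    fun k => if ∃ c, k = base c then a.2.2.2.2 k else Rm B hb hy ρ s (rel B k) a)

theorem cont_vec3 {P : Type*} [NormedAddCommGroup P] [NormedSpace ℝ P] {a₀ : P} {f g h : P → ℝ}
    (hf : ContDiffAt ℝ 1 f a₀) (hg : ContDiffAt ℝ 1 g a₀) (hh : ContDiffAt ℝ 1 h a₀) :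
    ContDiffAt ℝ 1 (fun a => (![f a, g a, h a] : Fin 3 → ℝ)) a₀ := by
  refine contDiffAt_pi.2 fun i => ?_
  fin_cases i
  · exact hf
  · exact hg
  · exact hh

theorem c_FF (hy : ∀ c, 0 < kap false * nrm (y c)) (κ : ℝ) (α β w : Fin 3 → ℝ) :
    ContDiffAt ℝ 1 (fun a => FF B hb hy κ α β w ρ s a) (pt5 n ρ s y) := by
  refine ContDiffAt.prodMk ?_ (ContDiffAt.prodMk ?_ (ContDiffAt.prodMk ?_
    (ContDiffAt.prodMk ?_ ?_)))
  · exact contDiffAt_pi.2 fun i => coord_cont (c_Ps B hb hy 0) i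
  · exact cont_vec3 (coord_cont (c_Ps B hb hy 1) 0) (coord_cont (c_Ps B hb hy 1) 2)
      (coord_cont (c_Ps B hb hy 2) 2)
  · exact contDiffAt_pi.2 fun c => c_Cs hy κ α β w c
  · exact cont_vec3 (contDiffAt_pi.1 (c_y 0) 0) (contDiffAt_pi.1 (c_y 0) 1)
      (contDiffAt_pi.1 (c_y 1) 1)
  · refine contDiffAt_pi.2 fun k => ?_
    by_cases h : ∃ c, k = base c
    · simp only [if_pos h]
      exact c_b k
    · simp only [if_neg h]
      exact c_Rm B hb hy _

end smooth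

end Pool.Agent.H42.LK
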