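import Pool.Agent.H42.LK.Unif

set_option autoImplicit false

/-!
# Twisting by central shifts
-/

namespace Pool.Agent.H42.LK

open Pool.Agent.H42.LO Pool.Agent.H42.ML Real

/-- A group with a nontrivial homomorphism to a left-orderable group has a left-orderable
quotient. -/
theorem quot_of_hom {G : Type} [Group G] {H : Type} [Group H] (hH : LeftOrderable H)
    (f : G →* H) {g : G} (hg : f g ≠ 1) :
    ∃ (Q : Type) (_ : Group Q) (φ : G →* Q), Function.Surjective φ ∧ LeftOrderable Q := by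
  refine ⟨f.range, inferInstance, f.rangeRestrict, f.rangeRestrict_surjective, ?_, ?_⟩
  · refine ⟨⟨⟨f g, g, rfl⟩, 1, ?_⟩⟩
    intro h
    exact hg (congrArg Subtype.val h)
  · obtain ⟨-, lt, hlt, hinv⟩ := hH
    refine ⟨fun a b => lt a.1 b.1, ?_, fun a b c => hinv a.1 b.1 c.1⟩
    exact {
      trichotomous := fun a b hab hba => Subtype.ext (hlt.trichotomous a.1 b.1 hab hba)
      irrefl := fun a => hlt.irrefl a.1
      trans := fun a b c => hlt.trans a.1 b.1 c.1 }

/-- The shift by a multiple of `π` commutes with a periodic map. -/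
theorem per_comm {f : ℝ ≃o ℝ} (hf : ∀ t, f (t + π) = f t + π) (m : ℤ) :
    f * sh (π * m) = sh (π * m) * f := by
  ext t
  show f (t + π * m) = f t + π * m
  have := per_int hf m t
  rw [mul_comm π (m : ℝ)]
  exact this

theorem per_mul {f g : ℝ ≃o ℝ} (hf : ∀ t, f (t + π) = f t + π) (hg : ∀ t, g (t + π) = g t + π)
    (t : ℝ) : (f * g) (t + π) = (f * g) t + π := by
  show f (g (t + π)) = f (g t) + π
  rw [hg, hf]

theorem per_inv {f : ℝ ≃o ℝ} (hf : ∀ t, f (t + π) = f t + π) (t : ℝ) :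
    f⁻¹ (t + π) = f⁻¹ t + π := by
  have key : ∀ t, f (f⁻¹ t) = t := fun t => f.apply_symm_apply t
  apply f.injective
  rw [key, hf, key]

theorem per_word {n : ℕ} {g : Fin n → (ℝ ≃o ℝ)} (hg : ∀ k t, g k (t + π) = g k t + π)
    (v : FreeGroup (Fin n)) : ∀ t, FreeGroup.lift g v (t + π) = FreeGroup.lift g v t + π := by
  induction v using FreeGroup.induction_on with
  | C1 => intro t; simp
  | of k =>
    intro t
    show FreeGroup.lift g (FreeGroup.of k) (t + π) = FreeGroup.lift g (FreeGroup.of k) t + π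
    rw [FreeGroup.lift_apply_of]
    exact hg k t
  | inv_of k ih =>
    show ∀ t, FreeGroup.lift g (FreeGroup.of k)⁻¹ (t + π) = FreeGroup.lift g (FreeGroup.of k)⁻¹ t + π
    rw [map_inv, FreeGroup.lift_apply_of]
    exact per_inv (hg k)
  | mul v w hv hw => rw [map_mul]; exact per_mul hv hw

theorem conj_sh_zpow (f : ℝ ≃o ℝ) (τ : ℝ) (m : ℤ) :
    (f * sh τ * f⁻¹) ^ m = f * sh (m * τ) * f⁻¹ := by
  rw [conj_zpow, sh_zpow]

variable {n : ℕ} (B : Braid n) {base : Fin 3 → Fin n} (hb : B.IsBase base)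

/-- The exponent sum of a word, where the component `c` has weight `χ c`. -/
noncomputable def wsum (base : Fin 3 → Fin n) (χ : Fin 3 → ℤ) (v : FreeGroup (Fin n)) : ℤ :=
  ∑ c, χ c * (B.own (base c) v).toAdd

theorem wsum_mul (χ : Fin 3 → ℤ) (v w : FreeGroup (Fin n)) :
    wsum B base χ (v * w) = wsum B base χ v + wsum B base χ w := by
  simp [wsum, mul_add, Finset.sum_add_distrib]

theorem wsum_inv (χ : Fin 3 → ℤ) (v : FreeGroup (Fin n)) :
    wsum B base χ v⁻¹ = - wsum B base χ v := by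
  simp [wsum, Finset.sum_neg_distrib]

theorem wsum_one (χ : Fin 3 → ℤ) : wsum B base χ 1 = 0 := by
  simp [wsum]

theorem wsum_of (χ : Fin 3 → ℤ) (k : Fin n) :
    wsum B base χ (FreeGroup.of k) = χ (B.comp hb k) := by
  rw [wsum]
  simp only [own_of B hb]
  simp

theorem wsum_zpow (χ : Fin 3 → ℤ) (v : FreeGroup (Fin n)) (m : ℤ) :
    wsum B base χ (v ^ m) = m * wsum B base χ v := by
  simp only [wsum, map_zpow, toAdd_zpow, smul_eq_mul, Finset.mul_sum]
  exact Finset.sum_congr rfl fun c _ => by ring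

include hb in
theorem wsum_rel (χ : Fin 3 → ℤ) (k : Fin n) :
    wsum B base χ (B.u k * FreeGroup.of (B.s k) * (B.u k)⁻¹ * (FreeGroup.of k)⁻¹) = 0 := by
  rw [wsum_mul, wsum_mul, wsum_mul, wsum_inv, wsum_inv, wsum_of B hb, wsum_of B hb, B.comp_s hb]
  ring

include hb in
theorem wsum_longitude {l : Fin 3 → ℤ} (hL : HasLinking B base l) (χ : Fin 3 → ℤ) (c : Fin 3) :
    wsum B base χ (B.longitude (base c)) = l (c + 2) * χ (c + 1) + l (c + 1) * χ (c + 2) := by
  have key : ∀ G : Fin 3 → ℤ, ∑ d, G d = G c + G (c + 1) + G (c + 2) := by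
    intro G
    rw [Fin.sum_univ_three]
    fin_cases c
    · rfl
    · show G 0 + G 1 + G 2 = G 1 + G 2 + G 0
      ring
    · show G 0 + G 1 + G 2 = G 2 + G 0 + G 1
      ring
  rw [wsum, key, own_longitude_self B hb, (own_longitude B hL c).1, (own_longitude B hL c).2]
  ring

/-- The generators twisted by shifts. -/
noncomputable def twist (χ : Fin 3 → ℤ) (g : Fin n → (ℝ ≃o ℝ)) (k : Fin n) : ℝ ≃o ℝ :=
  g k * sh (π * (χ (B.comp hb k) : ℤ))

theorem twist_word (χ : Fin 3 → ℤ) {g : Fin n → (ℝ ≃o ℝ)}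
    (hg : ∀ k t, g k (t + π) = g k t + π) (v : FreeGroup (Fin n)) :
    FreeGroup.lift (twist B hb χ g) v =
      FreeGroup.lift g v * sh (π * (wsum B base χ v : ℤ)) := by
  induction v using FreeGroup.induction_on with
  | C1 => rw [map_one, map_one, wsum_one]; simp [sh_zero]
  | of k =>
    show FreeGroup.lift (twist B hb χ g) (FreeGroup.of k) =
      FreeGroup.lift g (FreeGroup.of k) * sh (π * (wsum B base χ (FreeGroup.of k) : ℤ))
    rw [FreeGroup.lift_apply_of, FreeGroup.lift_apply_of, wsum_of B hb, twist]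
  | inv_of k ih =>
    show FreeGroup.lift (twist B hb χ g) (FreeGroup.of k)⁻¹ =
      FreeGroup.lift g (FreeGroup.of k)⁻¹ * sh (π * (wsum B base χ (FreeGroup.of k)⁻¹ : ℤ))
    rw [map_inv, map_inv, FreeGroup.lift_apply_of, FreeGroup.lift_apply_of, wsum_inv,
      wsum_of B hb, twist, mul_inv_rev, ← sh_neg]
    have h1 := per_comm (per_inv (hg k)) (-(χ (B.comp hb k)))
    have e : -(π * ((χ (B.comp hb k) : ℤ) : ℝ)) = π * ((-(χ (B.comp hb k)) : ℤ) : ℝ) := by
      push_cast; ring
    rw [e, h1]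
  | mul v w hv hw =>
    rw [map_mul, map_mul, hv, hw, wsum_mul]
    have h1 := per_comm (per_word hg w) (wsum B base χ v)
    have e : π * ((wsum B base χ v + wsum B base χ w : ℤ) : ℝ) =
        π * (wsum B base χ v : ℤ) + π * (wsum B base χ w : ℤ) := by push_cast; ring
    rw [e, sh_add]
    calc FreeGroup.lift g v * sh (π * (wsum B base χ v : ℤ)) *
          (FreeGroup.lift g w * sh (π * (wsum B base χ w : ℤ)))
        = FreeGroup.lift g v * (sh (π * (wsum B base χ v : ℤ)) * FreeGroup.lift g w) *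
          sh (π * (wsum B base χ w : ℤ)) := by simp only [mul_assoc]
      _ = FreeGroup.lift g v * (FreeGroup.lift g w * sh (π * (wsum B base χ v : ℤ))) *
          sh (π * (wsum B base χ w : ℤ)) := by rw [h1]
      _ = _ := by simp only [mul_assoc]

theorem twist_nc (χ : Fin 3 → ℤ) {g : Fin n → (ℝ ≃o ℝ)} (hg : ∀ k t, g k (t + π) = g k t + π)
    {i j : Fin n} (h : g i * g j ≠ g j * g i) :
    twist B hb χ g i * twist B hb χ g j ≠ twist B hb χ g j * twist B hb χ g i := by
  intro hcon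
  apply h
  have h1 := twist_word B hb χ hg (FreeGroup.of i * FreeGroup.of j)
  have h2 := twist_word B hb χ hg (FreeGroup.of j * FreeGroup.of i)
  rw [map_mul, map_mul] at h1 h2
  simp only [FreeGroup.lift_apply_of] at h1 h2
  have h3 : wsum B base χ (FreeGroup.of i * FreeGroup.of j) =
      wsum B base χ (FreeGroup.of j * FreeGroup.of i) := by
    rw [wsum_mul, wsum_mul, add_comm]
  rw [hcon, h2, h3] at h1
  exact (mul_right_cancel h1).symm

end Pool.Agent.H42.LK
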