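import Pool.Agent.H42.LK.Fam

set_option autoImplicit false

/-!
# Uniform families of actions
-/

namespace Pool.Agent.H42.LK

open Pool.Agent.H42.LO Pool.Agent.H42.ML Filter Topology Real
open scoped Matrix.Norms.Operator

/-- The number with index `k` is larger, by a factor, than the sum of the two other ones in
absolute value, has the opposite sign, and the two other ones are not too small. -/
structure ConeAt (η : ℝ) (b : Fin 3 → ℝ) (k : Fin 3) : Prop where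
  same : 0 < b (k + 1) * b (k + 2)
  opp : b k * b (k + 1) < 0
  sum : |b (k + 1)| + |b (k + 2)| ≤ (1 - η) * |b k|
  one : η * |b k| ≤ |b (k + 1)|
  two : η * |b k| ≤ |b (k + 2)|

/-- The existence of the base point. -/
theorem exists_BP {l : Fin 3 → ℤ} (hl : ∀ c, (l c : ℝ) ≠ 0) {κ : ℝ} {α β ρ s w : Fin 3 → ℝ}
    (hs : ∀ c, s c = -(l (c + 1) * l (c + 2)) / l c) (hγ : ∀ c, α c + κ * s c ≠ 0)
    (hc : ∀ c, w c * (α c + κ * s c) + β c * ρ c = 0)
    (h1 : 0 < w 1 / l 1 * (w 2 / l 2)) (h2 : w 0 / l 0 * (w 1 / l 1) < 0)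
    (h3 : |w 1 / l 1| + |w 2 / l 2| < |w 0 / l 0|) :
    ∃ y, BP l κ α β ρ s w y := by
  obtain ⟨b, hb⟩ : ∃ b : Fin 3 → ℝ, b = fun c => w c / l c := ⟨_, rfl⟩
  have hw : ∀ c, w c = l c * b c := by
    intro c; rw [hb]; have := hl c; field_simp
  have e0 : w 0 / l 0 = b 0 := by rw [hb]
  have e1 : w 1 / l 1 = b 1 := by rw [hb]
  have e2 : w 2 / l 2 = b 2 := by rw [hb]
  rw [e1, e2] at h1
  rw [e0, e1] at h2
  rw [e0, e1, e2] at h3
  have b0 : b 0 ≠ 0 := by rintro h; rw [h] at h2; simp at h2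
  have b1 : b 1 ≠ 0 := by rintro h; rw [h] at h2; simp at h2
  have b2 : b 2 ≠ 0 := by rintro h; rw [h] at h1; simp at h1
  have b02 : b 0 * b 2 < 0 := by
    have k1 : (b 0 * b 1) * (b 1 * b 2) < 0 := mul_neg_of_neg_of_pos h2 h1
    have k2 : (b 0 * b 1) * (b 1 * b 2) = b 1 ^ 2 * (b 0 * b 2) := by ring
    rw [k2] at k1
    by_contra hcon
    push Not at hcon
    have := mul_nonneg (sq_nonneg (b 1)) hcon
    linarith
  have hB0 : 0 < |b 0| := abs_pos.2 b0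
  have hB1 : 0 < |b 1| := abs_pos.2 b1
  have hB2 : 0 < |b 2| := abs_pos.2 b2
  have s0 : |b 0| ^ 2 = b 0 ^ 2 := sq_abs _
  have s1 : |b 1| ^ 2 = b 1 ^ 2 := sq_abs _
  have s2 : |b 2| ^ 2 = b 2 ^ 2 := sq_abs _
  obtain ⟨H, hH⟩ : ∃ H : ℝ, H = (b 0 ^ 2 + b 1 ^ 2 - b 2 ^ 2) ^ 2 - 4 * b 0 ^ 2 * b 1 ^ 2 := ⟨_, rfl⟩
  have hHpos : 0 < H := by
    have k1 : H = ((|b 0| - |b 1|) ^ 2 - |b 2| ^ 2) * ((|b 0| + |b 1|) ^ 2 - |b 2| ^ 2) := by
      rw [hH, ← s0, ← s1, ← s2]; ring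
    rw [k1]
    apply mul_pos
    · have : (|b 0| - |b 1|) ^ 2 - |b 2| ^ 2 =
        (|b 0| - |b 1| - |b 2|) * (|b 0| - |b 1| + |b 2|) := by ring
      rw [this]
      exact mul_pos (by linarith) (by linarith)
    · have : (|b 0| + |b 1|) ^ 2 - |b 2| ^ 2 =
        (|b 0| + |b 1| - |b 2|) * (|b 0| + |b 1| + |b 2|) := by ring
      rw [this]
      exact mul_pos (by linarith) (by linarith)
  obtain ⟨r, hr⟩ : ∃ r : ℝ, r = Real.sqrt H := ⟨_, rfl⟩
  have hr0 : 0 < r := by rw [hr]; exact Real.sqrt_pos.2 hHpos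
  have hr2 : r ^ 2 = H := by rw [hr]; exact Real.sq_sqrt hHpos.le
  obtain ⟨k, hk⟩ : ∃ k : ℝ, k = r / (2 * b 0) := ⟨_, rfl⟩
  obtain ⟨p, hp⟩ : ∃ p : ℝ, p = (b 0 ^ 2 + b 1 ^ 2 - b 2 ^ 2) / (2 * b 0) := ⟨_, rfl⟩
  obtain ⟨q, hq⟩ : ∃ q : ℝ, q = (b 0 ^ 2 + b 2 ^ 2 - b 1 ^ 2) / (2 * b 0) := ⟨_, rfl⟩
  have hk0 : k ≠ 0 := by rw [hk]; exact div_ne_zero hr0.ne' (by simpa using b0)
  have hpq : p + q = b 0 := by rw [hp, hq]; field_simp; ring
  have hpk : p ^ 2 - k ^ 2 = b 1 ^ 2 := by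
    rw [hp, hk, div_pow, div_pow, hr2, hH]; field_simp; ring
  have hqk : q ^ 2 - k ^ 2 = b 2 ^ 2 := by
    rw [hq, hk, div_pow, div_pow, hr2, hH]; field_simp; ring
  have hnum1 : 0 < b 0 ^ 2 + b 1 ^ 2 - b 2 ^ 2 := by
    rw [← s0, ← s1, ← s2]; nlinarith
  have hnum2 : 0 < b 0 ^ 2 + b 2 ^ 2 - b 1 ^ 2 := by
    rw [← s0, ← s1, ← s2]; nlinarith
  have hp1 : b 1 * p < 0 := by
    have : b 1 * p = (b 0 * b 1) * (b 0 ^ 2 + b 1 ^ 2 - b 2 ^ 2) / (2 * b 0 ^ 2) := by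
      rw [hp]; field_simp
    rw [this]
    exact div_neg_of_neg_of_pos (mul_neg_of_neg_of_pos h2 hnum1) (by positivity)
  have hq1 : b 2 * q < 0 := by
    have : b 2 * q = (b 0 * b 2) * (b 0 ^ 2 + b 2 ^ 2 - b 1 ^ 2) / (2 * b 0 ^ 2) := by
      rw [hq]; field_simp
    rw [this]
    exact div_neg_of_neg_of_pos (mul_neg_of_neg_of_pos b02 hnum2) (by positivity)
  have hq0 : q ≠ 0 := by rintro h; rw [h] at hq1; simp at hq1
  have l0 := hl 0
  have l1 := hl 1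
  have l2 := hl 2
  refine ⟨![![0, 0, w 0], ![-(l 1 * k), 0, -(l 1 * p)], ![l 2 * k, 0, -(l 2 * q)]], ?_⟩
  refine ⟨hl, ?_, rfl, rfl, rfl, rfl, ?_, ?_, ?_, ?_, ?_, ?_, ?_, ?_, hγ, hc⟩
  · intro c
    rw [hw c]
    fin_cases c
    · exact mul_ne_zero l0 b0
    · exact mul_ne_zero l1 b1
    · exact mul_ne_zero l2 b2
  · show w 0 ≠ 0
    rw [hw]; exact mul_ne_zero l0 b0
  · show -((l 1 : ℝ) * k) ≠ 0
    exact neg_ne_zero.2 (mul_ne_zero l1 hk0)
  · show -((l 2 : ℝ) * q) ≠ 0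
    exact neg_ne_zero.2 (mul_ne_zero l2 hq0)
  · show -((l 1 : ℝ) * p) * (l 2 * k) - -(l 1 * k) * -(l 2 * q) ≠ 0
    have : -((l 1 : ℝ) * p) * (l 2 * k) - -(l 1 * k) * -(l 2 * q) = -(l 1 * l 2 * k * b 0) := by
      rw [← hpq]; ring
    rw [this]
    exact neg_ne_zero.2 (mul_ne_zero (mul_ne_zero (mul_ne_zero l1 l2) hk0) b0)
  · intro c
    fin_cases c
    · show nrm ![0, 0, w 0] = -(w 0) ^ 2
      simp [nrm]
    · show nrm ![-(l 1 * k), 0, -(l 1 * p)] = -(w 1) ^ 2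
      rw [hw 1]
      simp only [nrm, Matrix.cons_val_zero, Matrix.cons_val_one, Matrix.cons_val]
      linear_combination (-(l 1 : ℝ) ^ 2) * hpk
    · show nrm ![l 2 * k, 0, -(l 2 * q)] = -(w 2) ^ 2
      rw [hw 2]
      simp only [nrm, Matrix.cons_val_zero, Matrix.cons_val_one, Matrix.cons_val]
      linear_combination (-(l 2 : ℝ) ^ 2) * hqk
  · intro c
    fin_cases c
    · show 0 < w 0 * w 0
      rw [hw]
      exact mul_self_pos.2 (mul_ne_zero l0 b0)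
    · show 0 < w 1 * -(l 1 * p)
      rw [hw]
      have : (l 1 : ℝ) * b 1 * -(l 1 * p) = (l 1) ^ 2 * (-(b 1 * p)) := by ring
      rw [this]
      exact mul_pos (by positivity) (by linarith)
    · show 0 < w 2 * -(l 2 * q)
      rw [hw]
      have : (l 2 : ℝ) * b 2 * -(l 2 * q) = (l 2) ^ 2 * (-(b 2 * q)) := by ring
      rw [this]
      exact mul_pos (by positivity) (by linarith)
  · intro c
    rw [hs c, div_mul_cancel₀ _ (hl c)]
  · intro i
    fin_cases i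
    · show 0 / (l 0 : ℝ) + -(l 1 * k) / l 1 + l 2 * k / l 2 = 0
      field_simp; ring
    · show 0 / (l 0 : ℝ) + 0 / l 1 + 0 / l 2 = 0
      simp
    · show w 0 / (l 0 : ℝ) + -(l 1 * p) / l 1 + -(l 2 * q) / l 2 = 0
      rw [e0, ← hpq]; field_simp; ring

variable {n : ℕ} {B : Braid n} {base : Fin 3 → Fin n} (hb : B.IsBase base)

include hb in
/-- The uniform family of actions, the first component being the special one. -/
theorem unif {l : Fin 3 → ℤ} (hl : ∀ c, (l c : ℝ) ≠ 0) (hL : HasLinking B base l) {κ : ℝ}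
    {α β τ : Fin 3 → ℝ} (hγ : ∀ c, α c + κ * (-(l (c + 1) * l (c + 2)) / l c) ≠ 0) {Γ : ℝ}
    (hΓ : Γ ≠ 0) (hτ : ∀ c, -(β c * τ c) = Γ * ((α c + κ * (-(l (c + 1) * l (c + 2)) / l c)) * l c))
    {η : ℝ} (hη : 0 < η) : ∃ δ : ℝ, 0 < δ ∧ ∀ ε : ℝ, 0 < ε → ε < δ → ∀ b : Fin 3 → ℝ,
      ConeAt η b 0 → |b 0| = 1 → ∃ w' s' : Fin 3 → ℝ, (∀ c, w' c ≠ 0) ∧
      (∀ c, w' c * (α c + κ * (ε * (τ c * b c) + s' c)) + β c * (τ c * b c) = 0) ∧
      ∃ g : Fin n → (ℝ ≃o ℝ), Act B base ε w' s' g := by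
  set K : Set (Fin 3 → ℝ) := {b | 0 ≤ b 1 * b 2 ∧ b 0 * b 1 ≤ 0 ∧ |b 1| + |b 2| ≤ 1 - η ∧
    η ≤ |b 1| ∧ η ≤ |b 2| ∧ |b 0| = 1} with hK
  have hclosed : IsClosed K := by
    have c0 : Continuous (fun b : Fin 3 → ℝ => b 0) := continuous_apply 0
    have c1 : Continuous (fun b : Fin 3 → ℝ => b 1) := continuous_apply 1
    have c2 : Continuous (fun b : Fin 3 → ℝ => b 2) := continuous_apply 2
    have e : K = {b : Fin 3 → ℝ | 0 ≤ b 1 * b 2} ∩ ({b | b 0 * b 1 ≤ 0} ∩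
        ({b | |b 1| + |b 2| ≤ 1 - η} ∩ ({b | η ≤ |b 1|} ∩ ({b | η ≤ |b 2|} ∩
          {b | |b 0| = 1})))) := by
      ext b; simp [hK]
    rw [e]
    exact (isClosed_le continuous_const (c1.mul c2)).inter
      ((isClosed_le (c0.mul c1) continuous_const).inter
      ((isClosed_le (c1.abs.add c2.abs) continuous_const).inter
      ((isClosed_le continuous_const c1.abs).inter
      ((isClosed_le continuous_const c2.abs).inter (isClosed_eq c0.abs continuous_const)))))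
  have hbdd : Bornology.IsBounded K := by
    refine (Metric.isBounded_closedBall (x := (0 : Fin 3 → ℝ)) (r := 1)).subset fun b hb => ?_
    obtain ⟨-, -, k3, k4, k5, k6⟩ := hb
    rw [mem_closedBall_zero_iff, pi_norm_le_iff_of_nonneg zero_le_one]
    intro c
    have a1 := abs_nonneg (b 1)
    have a2 := abs_nonneg (b 2)
    fin_cases c
    · exact k6.le
    · show |b 1| ≤ 1
      linarith
    · show |b 2| ≤ 1
      linarith
  have hcomp : IsCompact K := Metric.isCompact_of_isClosed_isBounded hclosed hbdd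
  have hev : ∀ᶠ ε in 𝓝 (0 : ℝ), ∀ b ∈ K, ε ≠ 0 → ∃ w' s' : Fin 3 → ℝ, (∀ c, w' c ≠ 0) ∧
      (∀ c, w' c * (α c + κ * (ε * (τ c * b c) + s' c)) + β c * (τ c * b c) = 0) ∧
      ∃ g : Fin n → (ℝ ≃o ℝ), Act B base ε w' s' g := by
    refine hcomp.eventually_forall_of_forall_eventually fun b hbK => ?_
    obtain ⟨k1, k2, k3, k4, k5, k6⟩ := hbK
    obtain ⟨s, hs⟩ : ∃ s : Fin 3 → ℝ, s = fun c => -((l (c + 1) : ℝ) * l (c + 2)) / l c :=
      ⟨_, rfl⟩
    obtain ⟨w, hw⟩ : ∃ w : Fin 3 → ℝ, w = fun c => Γ * l c * b c := ⟨_, rfl⟩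
    obtain ⟨ρ, hρ⟩ : ∃ ρ : Fin 3 → ℝ, ρ = fun c => τ c * b c := ⟨_, rfl⟩
    have hγ' : ∀ c, α c + κ * s c ≠ 0 := fun c => by rw [hs]; exact hγ c
    have hcst : ∀ c, w c * (α c + κ * s c) + β c * ρ c = 0 := by
      intro c
      have := hτ c
      rw [hw, hs, hρ]
      linear_combination (-(b c)) * this
    have hwl : ∀ c, w c / l c = Γ * b c := by
      intro c
      have := hl c
      rw [hw]; field_simp
    have hη1 : η < 1 := by
      have := abs_nonneg (b 2)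
      linarith
    have n0 : b 0 ≠ 0 := by rintro h; rw [h] at k6; simp at k6
    have n1 : b 1 ≠ 0 := by rintro h; rw [h] at k4; simp at k4; linarith
    have n2 : b 2 ≠ 0 := by rintro h; rw [h] at k5; simp at k5; linarith
    have m1 : 0 < b 1 * b 2 := lt_of_le_of_ne k1 (mul_ne_zero n1 n2).symm
    have m2 : b 0 * b 1 < 0 := lt_of_le_of_ne k2 (mul_ne_zero n0 n1)
    have hΓ2 : 0 < Γ ^ 2 := by positivity
    obtain ⟨y, hy⟩ := exists_BP (β := β) (ρ := ρ) (w := w) hl (s := s) (fun c => by rw [hs])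
      hγ' hcst
      (by rw [hwl, hwl]; have : Γ * b 1 * (Γ * b 2) = Γ ^ 2 * (b 1 * b 2) := by ring
          rw [this]; positivity)
      (by rw [hwl, hwl]; have : Γ * b 0 * (Γ * b 1) = Γ ^ 2 * (b 0 * b 1) := by ring
          rw [this]; exact mul_neg_of_pos_of_neg hΓ2 m2)
      (by rw [hwl, hwl, hwl, abs_mul, abs_mul, abs_mul, ← mul_add]
          exact mul_lt_mul_of_pos_left (by linarith) (abs_pos.2 hΓ))
    have h1 := act_ev B hb hy hL
    have h2 : Continuous (fun x : ℝ × (Fin 3 → ℝ) => ((x.1, fun c => τ c * x.2 c) :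
        ℝ × (Fin 3 → ℝ))) := by fun_prop
    have h3 : Tendsto (fun x : ℝ × (Fin 3 → ℝ) => ((x.1, fun c => τ c * x.2 c) :
        ℝ × (Fin 3 → ℝ))) (𝓝 (0, b)) (𝓝 (0, ρ)) := by
      have := h2.tendsto (0, b)
      rw [hρ]
      exact this
    exact h3.eventually h1
  obtain ⟨δ, hδ, hball⟩ := Metric.eventually_nhds_iff.1 hev
  refine ⟨δ, hδ, fun ε h1 h2 b hb1 hb2 => ?_⟩
  refine hball (by rw [Real.dist_eq, sub_zero, abs_of_pos h1]; exact h2) b ?_ h1.ne'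
  have k3 := hb1.sum
  have k4 := hb1.one
  have k5 := hb1.two
  rw [hb2, mul_one] at k3 k4 k5
  exact ⟨hb1.same.le, hb1.opp.le, k3, k4, k5, hb2⟩

/-! ## Renumbering the components -/

include hb in
theorem shift_base (k : Fin 3) : B.IsBase (fun c => base (c + k)) := by
  intro j
  obtain ⟨c, hc, hc'⟩ := hb j
  refine ⟨c - k, ?_, fun d hd => ?_⟩
  · show B.s.SameCycle (base (c - k + k)) j
    rw [sub_add_cancel]; exact hc
  · have := hc' (d + k) hd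
    rw [← this, add_sub_cancel_right]

theorem shift_link {l : Fin 3 → ℤ} (hL : HasLinking B base l) (k : Fin 3) :
    HasLinking B (fun c => base (c + k)) (fun c => l (c + k)) := by
  intro c
  have h1 : c + 1 + k = c + k + 1 := by abel
  have h2 : c + 2 + k = c + k + 2 := by abel
  simp only [h1, h2]
  exact hL (c + k)

theorem shift_cone {η : ℝ} {b : Fin 3 → ℝ} {k : Fin 3} (h : ConeAt η b k) :
    ConeAt η (fun c => b (c + k)) 0 := by
  obtain ⟨h1, h2, h3, h4, h5⟩ := h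
  have e0 : (0 : Fin 3) + k = k := zero_add k
  have e1 : (0 : Fin 3) + 1 + k = k + 1 := by abel
  have e2 : (0 : Fin 3) + 2 + k = k + 2 := by abel
  constructor
  · simp only [e1, e2]; exact h1
  · simp only [e0, e1]; exact h2
  · simp only [e0, e1, e2]; exact h3
  · simp only [e0, e1]; exact h4
  · simp only [e0, e2]; exact h5

end Pool.Agent.H42.LK
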